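import Pool.Agent.Lib.MP_0a6a2f_gt.Tower

namespace Pool.Agent.Lib.MP_0a6a2f_gt

open Topology Filter Set

lemma exists_lc_select {P ι : Type} [TopologicalSpace P] [CompactSpace P] [T2Space P]
    [TotallyDisconnectedSpace P] [Nonempty P] (U : ι → Set P) (hU : ∀ i, IsOpen (U i))
    (hc : ∀ p, ∃ i, p ∈ U i) : ∃ α : P → ι, IsLocallyConstant α ∧ ∀ p, p ∈ U (α p) := by
  classical
  choose i hi using hc
  choose C hC hC1 hC2 using fun p => compact_exists_isClopen_in_isOpen (hU (i p)) (hi p)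
  obtain ⟨t, ht⟩ := isCompact_univ.elim_finite_subcover C (fun p => (hC p).isOpen)
    fun p _ => mem_iUnion.2 ⟨p, hC1 p⟩
  have hβ : IsLocallyConstant fun (q : P) (j : t) => q ∈ C j := by
    rw [IsLocallyConstant.iff_eventually_eq]
    intro x
    have : ∀ j : t, ∀ᶠ y in 𝓝 x, (y ∈ C j) = (x ∈ C j) := fun j => by
      by_cases h : x ∈ C j
      · filter_upwards [(hC j).isOpen.mem_nhds h] with y hy using by simp [hy, h]
      · filter_upwards [(hC j).compl.isOpen.mem_nhds h] with y hy using by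
          simpa [h] using hy
    filter_upwards [eventually_all.2 this] with y hy using funext hy
  refine ⟨_, hβ.comp fun s : t → Prop =>
    if h : ∃ j, s j then i h.choose.1 else i (Classical.arbitrary P), fun p => ?_⟩
  have h : ∃ j : t, p ∈ C j := by
    obtain ⟨j, hj, h⟩ := mem_iUnion₂.1 (ht (mem_univ p))
    exact ⟨⟨j, hj⟩, h⟩
  simp only [Function.comp_apply, dif_pos h]
  exact hC2 _ h.choose_spec

section quot

variable {P : Type} [TopologicalSpace P] [CompactSpace P] (s : Setoid P)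

lemma quot_closedMap (hs : IsClosed {q : P × P | s q.1 q.2}) : IsClosedMap (Quotient.mk s) := by
  intro F hF
  rw [← (isQuotientMap_quotient_mk' (s := s)).isCoinducing.isClosed_preimage]
  have : Quotient.mk' ⁻¹' (Quotient.mk s '' F) = Prod.snd '' ({q : P × P | s q.1 q.2} ∩ F ×ˢ univ) := by
    ext y
    constructor
    · rintro ⟨x, hx, h⟩
      exact ⟨(x, y), ⟨Quotient.exact h, hx, trivial⟩, rfl⟩
    · rintro ⟨⟨x, y⟩, ⟨h, hx, -⟩, rfl⟩
      exact ⟨x, hx, Quotient.sound h⟩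
  rw [this]
  exact isClosedMap_snd_of_compactSpace _ (hs.inter (hF.prod isClosed_univ))

lemma quot_t2 [T2Space P] (hs : IsClosed {q : P × P | s q.1 q.2}) : T2Space (Quotient s) := by
  refine ⟨fun a b hab => ?_⟩
  have hcl : ∀ a : Quotient s, IsClosed (Quotient.mk s ⁻¹' {a}) := fun a => by
    obtain ⟨x, rfl⟩ := Quotient.exists_rep a
    have : Quotient.mk s ⁻¹' {Quotient.mk s x} = (fun y => (y, x)) ⁻¹' {q : P × P | s q.1 q.2} := by
      ext y; exact Quotient.eq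
    rw [this]
    exact hs.preimage (by fun_prop)
  obtain ⟨U, V, hU, hV, h1, h2, h3⟩ := SeparatedNhds.of_isCompact_isCompact (hcl a).isCompact
    (hcl b).isCompact ((disjoint_singleton.2 hab).preimage _)
  refine ⟨(Quotient.mk s '' Uᶜ)ᶜ, (Quotient.mk s '' Vᶜ)ᶜ,
    (quot_closedMap s hs _ hU.isClosed_compl).isOpen_compl,
    (quot_closedMap s hs _ hV.isClosed_compl).isOpen_compl, ?_, ?_, ?_⟩
  · rintro ⟨x, hx, h⟩; exact hx (h1 h)
  · rintro ⟨x, hx, h⟩; exact hx (h2 h)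
  · rw [Set.disjoint_left]
    intro c hc hc'
    obtain ⟨x, rfl⟩ := Quotient.exists_rep c
    by_cases hx : x ∈ U
    · exact hc' ⟨x, fun h => Set.disjoint_left.1 h3 hx h, rfl⟩
    · exact hc ⟨x, hx, rfl⟩

end quot

lemma metrizable_of_surj {P X : Type} [TopologicalSpace P] [SecondCountableTopology P]
    [TopologicalSpace X] [CompactSpace X] [T2Space X] {p : P → X} (hp : Continuous p)
    (hp' : Function.Surjective p) : TopologicalSpace.MetrizableSpace X := by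
  obtain ⟨S, hS, hS'⟩ := TopologicalSpace.isOpen_iUnion_countable
    (fun f : C(X, ℝ) => {q : P × P | f (p q.1) ≠ f (p q.2)})
    fun f => isOpen_ne_fun (by fun_prop) (by fun_prop)
  have := hS.to_subtype
  have := Encodable.ofCountable S
  refine Metric.PiNatEmbed.TopologicalSpace.MetrizableSpace.of_countable_separating
    (Y := fun _ : S => ℝ) (fun f : S => f.1) (fun f => f.1.continuous) fun a b hab => ?_
  obtain ⟨x, rfl⟩ := hp' a
  obtain ⟨y, rfl⟩ := hp' b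
  obtain ⟨f, h0, h1, -⟩ := exists_continuous_zero_one_of_isClosed isClosed_singleton
    isClosed_singleton (disjoint_singleton.2 hab)
  have : (x, y) ∈ ⋃ f : C(X, ℝ), {q : P × P | f (p q.1) ≠ f (p q.2)} :=
    mem_iUnion.2 ⟨f, by simp [h0 rfl, h1 rfl]⟩
  rw [← hS'] at this
  obtain ⟨f, hf, h⟩ := mem_iUnion₂.1 this
  exact ⟨⟨f, hf⟩, h⟩

theorem dim_le_one {P X : Type} [TopologicalSpace P] [CompactSpace P] [T2Space P]
    [TotallyDisconnectedSpace P] [Nonempty P] [MetricSpace X] [CompactSpace X] {p : P → X}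
    (hp : Continuous p) (hp' : Function.Surjective p)
    (h2 : ∀ x y z, p x = p y → p y = p z → x = y ∨ y = z ∨ x = z)
    (n : ℕ) (U : Fin n → Set X) (hU : ∀ i, IsOpen (U i)) (hc : (⋃ i, U i) = Set.univ) :
    ∃ (m : ℕ) (V : Fin m → Set X), (∀ j, IsOpen (V j)) ∧ (⋃ j, V j) = Set.univ ∧
      (∀ j, ∃ i, V j ⊆ U i) ∧
      ∀ (x : X) (a b c : Fin m), x ∈ V a → x ∈ V b → x ∈ V c → a = b ∨ a = c ∨ b = c := by
  obtain ⟨α, hα, hα'⟩ := exists_lc_select (fun i => p ⁻¹' U i) (fun i => (hU i).preimage hp)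
    fun q => (mem_iUnion (s := U)).1 (hc ▸ mem_univ (p q))
  let F : Fin n → Set X := fun i => p '' {q | α q = i}
  have hF : ∀ i, IsClosed (F i) := fun i =>
    ((lc_closed hα fun j => j = i).isCompact.image hp).isClosed
  obtain ⟨k, hk⟩ := exists_empty
    (fun k => ⋃ t : {t : Fin n × Fin n × Fin n // ¬ (t.1 = t.2.1 ∨ t.1 = t.2.2 ∨ t.2.1 = t.2.2)},
      Metric.cthickening (1 / ((k : ℝ) + 1)) (F t.1.1) ∩
      Metric.cthickening (1 / ((k : ℝ) + 1)) (F t.1.2.1) ∩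
      Metric.cthickening (1 / ((k : ℝ) + 1)) (F t.1.2.2))
    (fun k => isClosed_iUnion_of_finite fun t =>
      (Metric.isClosed_cthickening.inter Metric.isClosed_cthickening).inter
        Metric.isClosed_cthickening)
    (fun k => iUnion_mono fun t => by
      have : 1 / (((k + 1 : ℕ) : ℝ) + 1) ≤ 1 / ((k : ℝ) + 1) :=
        Nat.one_div_le_one_div (Nat.le_succ k)
      exact inter_subset_inter (inter_subset_inter (Metric.cthickening_mono this _)
        (Metric.cthickening_mono this _)) (Metric.cthickening_mono this _))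
    (fun x => by
      have h1 : ∀ i, ∀ᶠ k : ℕ in atTop,
          x ∈ Metric.cthickening (1 / ((k : ℝ) + 1)) (F i) → x ∈ F i := fun i => by
        by_cases hx : x ∈ F i
        · exact Eventually.of_forall fun _ _ => hx
        · rw [← (hF i).closure_eq, Metric.closure_eq_iInter_cthickening] at hx
          simp only [mem_iInter, not_forall] at hx
          obtain ⟨δ, hδ, hx⟩ := hx
          filter_upwards [(tendsto_one_div_add_atTop_nhds_zero_nat (𝕜 := ℝ)).eventually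
            (ge_mem_nhds hδ)] with k hk h using absurd (Metric.cthickening_mono hk _ h) hx
      obtain ⟨k, hk⟩ := (eventually_all.2 h1).exists
      refine ⟨k, fun h => ?_⟩
      obtain ⟨⟨⟨a, b, c⟩, ht⟩, ⟨ha, hb⟩, hc⟩ := mem_iUnion.1 h
      obtain ⟨qa, rfl, ha'⟩ := hk _ ha
      obtain ⟨qb, rfl, hb'⟩ := hk _ hb
      obtain ⟨qc, rfl, hc'⟩ := hk _ hc
      apply ht
      rcases h2 qa qb qc (ha'.trans hb'.symm) (hb'.trans hc'.symm) with h | h | h <;> simp [h])
  refine ⟨n, fun i => Metric.thickening (1 / ((k : ℝ) + 1)) (F i) ∩ U i,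
    fun i => Metric.isOpen_thickening.inter (hU i), eq_univ_of_forall fun x => ?_,
    fun i => ⟨i, inter_subset_right⟩, fun x a b c ha hb hc => ?_⟩
  · obtain ⟨q, rfl⟩ := hp' x
    exact mem_iUnion.2 ⟨α q, Metric.self_subset_thickening Nat.one_div_pos_of_nat _ ⟨q, rfl, rfl⟩,
      hα' q⟩
  · by_contra h
    exact hk x (mem_iUnion.2 ⟨⟨(a, b, c), h⟩, ⟨Metric.thickening_subset_cthickening _ _ ha.1,
      Metric.thickening_subset_cthickening _ _ hb.1⟩,
      Metric.thickening_subset_cthickening _ _ hc.1⟩)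

section homog

variable {X : Type} [MetricSpace X] [CompactSpace X]

lemma homeo_limit (H : ℕ → X ≃ₜ X) (h1 : ∀ n x, dist (H n x) (H (n + 1) x) ≤ 1 / 2 ^ n)
    (h2 : ∀ n x, dist ((H n).symm x) ((H (n + 1)).symm x) ≤ 1 / 2 ^ n) :
    ∃ F : X ≃ₜ X, ∀ x, Tendsto (fun n => H n x) atTop (𝓝 (F x)) := by
  have c1 : CauchySeq fun n => (H n : C(X, X)) :=
    cauchySeq_of_le_geometric_two (C := 2) fun n => by
      rw [ContinuousMap.dist_le (by positivity)]
      intro x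
      simpa using h1 n x
  have c2 : CauchySeq fun n => ((H n).symm : C(X, X)) :=
    cauchySeq_of_le_geometric_two (C := 2) fun n => by
      rw [ContinuousMap.dist_le (by positivity)]
      intro x
      simpa using h2 n x
  obtain ⟨F, hF⟩ := cauchySeq_tendsto_of_complete c1
  obtain ⟨F', hF'⟩ := cauchySeq_tendsto_of_complete c2
  have e1 : F.comp F' = ContinuousMap.id X := by
    have := (ContinuousMap.continuous_comp'.tendsto (F', F)).comp (hF'.prodMk_nhds hF)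
    refine tendsto_nhds_unique this (tendsto_const_nhds.congr fun n => ?_)
    ext x; simp
  have e2 : F'.comp F = ContinuousMap.id X := by
    have := (ContinuousMap.continuous_comp'.tendsto (F, F')).comp (hF.prodMk_nhds hF')
    refine tendsto_nhds_unique this (tendsto_const_nhds.congr fun n => ?_)
    ext x; simp
  exact ⟨⟨⟨F, F', fun x => DFunLike.congr_fun e2 x, fun x => DFunLike.congr_fun e1 x⟩,
    F.continuous, F'.continuous⟩, fun x => ((continuous_eval_const x).tendsto F).comp hF⟩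

theorem homog_of_micro [PreconnectedSpace X]
    (h : ∀ ε > 0, ∃ δ > 0, ∀ x y : X, dist x y < δ → ∀ η > 0,
      ∃ f : X ≃ₜ X, (∀ z, dist z (f z) < ε) ∧ dist (f x) y < η) (x y : X) :
    ∃ f : X ≃ₜ X, f x = y := by
  have h' : ∀ (H : X ≃ₜ X) (n : ℕ), ∃ δ > 0, δ ≤ 1 / (2 : ℝ) ^ n ∧ ∀ x y : X, dist (H x) y < δ →
      ∀ η > 0, ∃ H' : X ≃ₜ X, (∀ z, dist (H z) (H' z) ≤ 1 / 2 ^ n) ∧
        (∀ z, dist (H.symm z) (H'.symm z) ≤ 1 / 2 ^ n) ∧ dist (H' x) y < η := by
    intro H n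
    obtain ⟨ε, hε, h1⟩ := Metric.uniformContinuous_iff.1
      (CompactSpace.uniformContinuous_of_continuous H.symm.continuous) (1 / 2 ^ n) (by positivity)
    obtain ⟨δ, hδ, h2⟩ := h (min ε (1 / 2 ^ n)) (by positivity)
    refine ⟨min δ (1 / 2 ^ n), by positivity, min_le_right _ _, fun x y hxy η hη => ?_⟩
    obtain ⟨f, h3, h4⟩ := h2 (H x) y (hxy.trans_le (min_le_left _ _)) η hη
    refine ⟨H.trans f, fun z => ((h3 _).trans_le (min_le_right _ _)).le, fun z => ?_, h4⟩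
    refine (h1 ?_).le
    have := (h3 (f.symm z)).trans_le (min_le_left _ _)
    rwa [f.apply_symm_apply, dist_comm] at this
  choose δ hδ hδ' h' using h'
  have loc : ∀ x y : X, dist x y < δ (Homeomorph.refl X) 0 → ∃ f : X ≃ₜ X, f x = y := by
    intro x y hxy
    have step : ∀ (n : ℕ) (s : (X ≃ₜ X) × (X ≃ₜ X)), dist (s.1 x) (s.2 y) < δ s.1 n →
        ∃ s' : (X ≃ₜ X) × (X ≃ₜ X), dist (s'.1 x) (s'.2 y) < δ s'.1 (n + 1) ∧
          (∀ z, dist (s.1 z) (s'.1 z) ≤ 1 / 2 ^ n) ∧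
          (∀ z, dist (s.1.symm z) (s'.1.symm z) ≤ 1 / 2 ^ n) ∧
          (∀ z, dist (s.2 z) (s'.2 z) ≤ 1 / 2 ^ n) ∧
          (∀ z, dist (s.2.symm z) (s'.2.symm z) ≤ 1 / 2 ^ n) := by
      intro n s hs
      obtain ⟨H', h1, h2, h3⟩ := h' s.1 n x _ hs _ (hδ s.2 n)
      obtain ⟨G', h4, h5, h6⟩ := h' s.2 n y (H' x) (by rwa [dist_comm]) _ (hδ H' (n + 1))
      exact ⟨(H', G'), by rwa [dist_comm], h1, h2, h4, h5⟩
    choose nx hnx using step
    let S : ∀ n : ℕ, {s : (X ≃ₜ X) × (X ≃ₜ X) // dist (s.1 x) (s.2 y) < δ s.1 n} := fun n =>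
      Nat.rec ⟨(Homeomorph.refl X, Homeomorph.refl X), hxy⟩
        (fun n s => ⟨nx n s.1 s.2, (hnx n s.1 s.2).1⟩) n
    obtain ⟨F, hF⟩ := homeo_limit (fun n => (S n).1.1) (fun n => (hnx n _ (S n).2).2.1)
      (fun n => (hnx n _ (S n).2).2.2.1)
    obtain ⟨G, hG⟩ := homeo_limit (fun n => (S n).1.2) (fun n => (hnx n _ (S n).2).2.2.2.1)
      (fun n => (hnx n _ (S n).2).2.2.2.2)
    refine ⟨F.trans G.symm, G.symm_apply_eq.2 (dist_le_zero.1 ?_)⟩
    have h0 : Tendsto (fun n : ℕ => 1 / (2 : ℝ) ^ n) atTop (𝓝 0) := by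
      simpa using tendsto_pow_atTop_nhds_zero_of_lt_one (r := (2 : ℝ)⁻¹) (by norm_num) (by norm_num)
    exact le_of_tendsto_of_tendsto' ((hF x).dist (hG y)) h0 fun n => (S n).2.le.trans (hδ' _ _)
  have hcl : IsClopen {y | ∃ f : X ≃ₜ X, f x = y} := by
    constructor
    · rw [← isOpen_compl_iff, Metric.isOpen_iff]
      refine fun y hy => ⟨_, hδ (Homeomorph.refl X) 0, fun z hz ⟨f, hf⟩ => hy ?_⟩
      obtain ⟨g, hg⟩ := loc z y hz
      exact ⟨f.trans g, by simp [hf, hg]⟩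
    · rw [Metric.isOpen_iff]
      refine fun y ⟨f, hf⟩ => ⟨_, hδ (Homeomorph.refl X) 0, fun z hz => ?_⟩
      obtain ⟨g, hg⟩ := loc y z (by rw [dist_comm]; exact hz)
      exact ⟨f.trans g, by simp [hf, hg]⟩
  rcases isClopen_iff.1 hcl with h | h
  · exact absurd (h ▸ ⟨Homeomorph.refl X, rfl⟩ : x ∈ (∅ : Set X)) (notMem_empty x)
  · exact (h ▸ mem_univ y : y ∈ {y | ∃ f : X ≃ₜ X, f x = y})

end homog

theorem baire_swap {G : Type} [Group G] [TopologicalSpace G] [IsTopologicalGroup G]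
    [CompactSpace G] [T2Space G] (H : Subgroup G) [Group.FG H] [Countable H]
    (hd : Dense (H : Set G)) (hnc : ∀ W ∈ 𝓝 (1 : G), ∃ a ∈ W, ∃ b ∈ W, a * b ≠ b * a) :
    ∃ g : G, ∀ (Φ : G → G) (N : Subgroup G), Continuous Φ → IsOpen (N : Set G) →
      (∀ γ ∈ H, ∀ u ∈ N, (Φ (u * γ))⁻¹ * Φ u = (Φ γ)⁻¹ * Φ 1) →
      (∀ γ ∈ H, ∀ u, (Φ (u * γ))⁻¹ * Φ u ∈ H) → g⁻¹ * Φ 1 ∈ H → Φ g ∈ H → False := by
  classical
  by_contra hcon
  push Not at hcon
  let Γ : Finset (H × H) → Subgroup (G × G) := fun F =>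
    (Subgroup.closure ((fun p : H × H => ((p.1 : G), (p.2 : G))) '' F)).topologicalClosure
  let E : {F : Finset (H × H) // ∀ t, ((1 : G), t) ∈ Γ F → t = 1} × H × H × H → Set G := fun i =>
    {g | (g * (i.2.1 : G)⁻¹, (i.2.2.1 : G)⁻¹ * (g * (i.2.1 : G)⁻¹)⁻¹ * i.2.2.2) ∈ Γ i.1.1}
  have hE : ∀ i, IsClosed (E i) := fun i =>
    (Subgroup.isClosed_topologicalClosure _).preimage (by fun_prop)
  have hcov : ⋃ i, E i = univ := by
    refine eq_univ_of_forall fun g => mem_iUnion.2 ?_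
    obtain ⟨Φ, N, hΦ, hN, h1, h2, h3, h4, -⟩ := hcon g
    let ψ : G → G := fun u => (Φ 1)⁻¹ * Φ u
    have hψc : Continuous ψ := by fun_prop
    have hψ : ∀ u ∈ N, ∀ w, ψ (u * w) = ψ u * ψ w := fun u hu w => by
      refine congrFun (Continuous.ext_on hd (f := fun w => ψ (u * w)) (g := fun w => ψ u * ψ w)
        (by fun_prop) (by fun_prop) fun γ hγ => ?_) w
      have := h1 γ hγ u hu
      simp only [ψ]
      rw [mul_assoc, mul_right_inj, ← inv_inj, mul_inv_rev, mul_inv_rev, inv_inv, ← this]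
      group
    have hψ1 : ψ 1 = 1 := by simp [ψ]
    have hψH : ∀ γ ∈ H, ψ γ ∈ H := fun γ hγ => by
      simpa [ψ] using H.inv_mem (h2 γ hγ 1)
    let Γ' : Subgroup (G × G) :=
      { carrier := {p | p.1 ∈ N ∧ p.2 = ψ p.1}
        mul_mem' := fun {a b} ha hb => ⟨N.mul_mem ha.1 hb.1, by
          rw [Prod.snd_mul, Prod.fst_mul, hψ _ ha.1, ha.2, hb.2]⟩
        one_mem' := ⟨N.one_mem, hψ1.symm⟩
        inv_mem' := fun {a} ha => ⟨N.inv_mem ha.1, by
          rw [Prod.snd_inv, Prod.fst_inv, ha.2, inv_eq_iff_mul_eq_one, ← hψ _ ha.1,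
            mul_inv_cancel, hψ1]⟩ }
    have hΓ' : IsClosed (Γ' : Set (G × G)) :=
      ((N.isClosed_of_isOpen hN).preimage continuous_fst).inter
        (isClosed_eq continuous_snd (hψc.comp continuous_fst))
    have := N.quotient_finite_of_isOpen hN
    have : N.FiniteIndex := Subgroup.finiteIndex_of_finite_quotient
    obtain ⟨S, hS⟩ := (Group.fg_iff_subgroup_fg _).1 (Subgroup.fg_of_index_ne_zero (N.subgroupOf H))
    let F : Finset (H × H) := S.image fun s => (s, ⟨ψ s, hψH _ s.2⟩)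
    have hF1 : Γ F ≤ Γ' := by
      refine Subgroup.topologicalClosure_minimal _ ((Subgroup.closure_le _).2 ?_) hΓ'
      rintro _ ⟨p, hp, rfl⟩
      obtain ⟨s, hs, rfl⟩ := Finset.mem_image.1 hp
      exact ⟨(hS ▸ Subgroup.subset_closure hs : s ∈ N.subgroupOf H), rfl⟩
    have hF2 : ∀ γ : H, γ ∈ N.subgroupOf H → ((γ : G), ψ γ) ∈ Γ F := by
      intro γ hγ
      rw [← hS] at hγ
      induction hγ using Subgroup.closure_induction with
      | mem s hs =>
        exact Subgroup.le_topologicalClosure _ (Subgroup.subset_closure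
          ⟨_, Finset.mem_image_of_mem _ hs, rfl⟩)
      | one => rw [OneMemClass.coe_one, hψ1]; exact (Γ F).one_mem
      | mul a b _ _ iha ihb =>
        have := (Γ F).mul_mem iha ihb
        rwa [Prod.mk_mul_mk, ← hψ _ (hF1 iha).1] at this
      | inv a _ iha =>
        have := (Γ F).inv_mem iha
        have h5 := (hF1 this).2
        rw [Prod.inv_mk] at this h5
        simp only at h5
        rwa [h5] at this
    have hF3 : ∀ u ∈ N, (u, ψ u) ∈ Γ F := fun u hu => by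
      have h5 : IsClosed {u | (u, ψ u) ∈ Γ F} :=
        (Subgroup.isClosed_topologicalClosure _).preimage (by fun_prop)
      exact h5.closure_subset_iff.2 (fun γ hγ => hF2 ⟨γ, hγ.2⟩ hγ.1)
        (hd.open_subset_closure_inter hN hu)
    obtain ⟨γ, hγ, hγ'⟩ := hd.inter_open_nonempty {γ | g * γ⁻¹ ∈ N} (hN.preimage (by fun_prop))
      ⟨g, by simp⟩
    have h6 : Φ (g * γ⁻¹) ∈ H := by
      have := H.mul_mem h4 (by simpa using h2 γ hγ' (g * γ⁻¹) : (Φ g)⁻¹ * Φ (g * γ⁻¹) ∈ H)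
      simpa using this
    refine ⟨(⟨F, fun t ht => (hF1 ht).2.trans hψ1⟩, ⟨γ, hγ'⟩, ⟨_, H.mul_mem hγ' h3⟩, ⟨_, h6⟩), ?_⟩
    have := hF3 _ hγ
    simp only [E, mem_ofPred_eq]
    convert this using 2
    simp only [ψ]
    group
  obtain ⟨⟨⟨F, hF⟩, ⟨γ, hγ⟩, ⟨γ', hγ'⟩, ⟨γ'', hγ''⟩⟩, g, hg⟩ :=
    nonempty_interior_of_iUnion_of_closed hE hcov
  have hW : (fun w => g * γ⁻¹ * w * γ) ⁻¹' {g | (g * γ⁻¹, γ'⁻¹ * (g * γ⁻¹)⁻¹ * γ'') ∈ Γ F} ∈
      𝓝 (1 : G) :=
    (show Continuous fun w => g * γ⁻¹ * w * γ by fun_prop).continuousAt.preimage_mem_nhds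
      (by
        rw [mul_one, inv_mul_cancel_right]
        exact mem_interior_iff_mem_nhds.1 hg)
  obtain ⟨W, hW1, hW2⟩ := exists_nhds_one_split hW
  have h1W := mem_of_mem_nhds hW1
  obtain ⟨a, ha, b, hb, hab⟩ := hnc W hW1
  have e1 := (Γ F).inv_mem (hW2 1 h1W 1 h1W)
  have ea := (Γ F).mul_mem e1 (hW2 a ha 1 h1W)
  have eb := (Γ F).mul_mem e1 (hW2 b hb 1 h1W)
  have eab := (Γ F).mul_mem e1 (hW2 a ha b hb)
  have := (Γ F).mul_mem ((Γ F).mul_mem ea eb) ((Γ F).inv_mem eab)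
  have h7 := hF (γ''⁻¹ * g * γ⁻¹ * (a⁻¹ * b⁻¹ * a * b) * γ * g⁻¹ * γ'') (by
    convert this using 1
    ext
    · simp only [Prod.fst_mul, Prod.fst_inv]; group
    · simp only [Prod.snd_mul, Prod.snd_inv]; group)
  apply hab
  calc a * b = b * a * (γ * g⁻¹ * γ'' * (γ''⁻¹ * g * γ⁻¹ * (a⁻¹ * b⁻¹ * a * b) * γ * g⁻¹ * γ'') *
      γ''⁻¹ * g * γ⁻¹) := by group
    _ = b * a := by rw [h7]; group

end Pool.Agent.Lib.MP_0a6a2f_gt
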