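import Mathlib

namespace Pool.Agent.Lib.MP_0a6a2f_gt

open Relation

/-- finite reflexive graphs -/
structure FG : Type 1 where
  V : Type
  fin : Finite V
  adj : V → V → Prop
  refl : ∀ v, adj v v
  symm : ∀ u v, adj u v → adj v u

instance (A : FG) : Finite A.V := A.fin

lemma rtg_lift {α β : Type} {r : α → α → Prop} {p : β → β → Prop} (f : α → β)
    (h : ∀ a b, r a b → p (f a) (f b)) {a b : α} (hab : ReflTransGen r a b) :
    ReflTransGen p (f a) (f b) := by
  induction hab with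
  | refl => exact ReflTransGen.refl
  | tail _ hbc ih => exact ih.tail (h _ _ hbc)

/-- walks inside `S` -/
def Conn {α : Type} (r : α → α → Prop) (S : α → Prop) : α → α → Prop :=
  ReflTransGen fun x y => r x y ∧ S x ∧ S y

lemma Conn.mono {α : Type} {r : α → α → Prop} {S S' : α → Prop} (h : ∀ x, S x → S' x) {u v : α}
    (huv : Conn r S u v) : Conn r S' u v :=
  rtg_lift (p := fun x y => r x y ∧ S' x ∧ S' y) (fun x => x)
    (fun _ _ hxy => ⟨hxy.1, h _ hxy.2.1, h _ hxy.2.2⟩) huv

lemma Conn.single {α : Type} {r : α → α → Prop} {S : α → Prop} {u v : α} (h : r u v) (hu : S u)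
    (hv : S v) : Conn r S u v := ReflTransGen.single ⟨h, hu, hv⟩

lemma Conn.trans {α : Type} {r : α → α → Prop} {S : α → Prop} {u v w : α} (h : Conn r S u v)
    (h' : Conn r S v w) : Conn r S u w := ReflTransGen.trans h h'

/-- connected epimorphisms -/
structure Good {α β : Type} (r : α → α → Prop) (s : β → β → Prop) (φ : α → β) : Prop where
  hom : ∀ u v, r u v → s (φ u) (φ v)
  lift : ∀ a b, s a b → ∃ u v, r u v ∧ φ u = a ∧ φ v = b
  conn : ∀ u v, φ u = φ v → Conn r (fun x => φ x = φ u) u v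

lemma Good.conn_preimage {α β : Type} {r : α → α → Prop} {s : β → β → Prop} {φ : α → β}
    (h : Good r s φ) {S : β → Prop} {a b : β} (hab : Conn s S a b) (ha : S a) :
    ∀ u v, φ u = a → φ v = b → Conn r (fun x => S (φ x)) u v := by
  induction hab with
  | refl =>
    intro u v hu hv
    exact (h.conn u v (hu.trans hv.symm)).mono fun x hx => by rw [hx, hu]; exact ha
  | tail _ hbc ih =>
    intro u v hu hv
    obtain ⟨u', v', h1, h2, h3⟩ := h.lift _ _ hbc.1
    refine (ih u u' hu h2).trans ((Conn.single h1 (h2 ▸ hbc.2.1) (h3 ▸ hbc.2.2)).trans ?_)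
    exact (h.conn v' v (h3.trans hv.symm)).mono fun x hx => by rw [hx, h3]; exact hbc.2.2

lemma Good.comp {α β γ : Type} {r : α → α → Prop} {s : β → β → Prop} {t : γ → γ → Prop}
    {φ : α → β} {ψ : β → γ} (h' : Good s t ψ) (h : Good r s φ) : Good r t fun x => ψ (φ x) where
  hom u v huv := h'.hom _ _ (h.hom _ _ huv)
  lift a b hab := by
    obtain ⟨u, v, h1, rfl, rfl⟩ := h'.lift a b hab
    obtain ⟨u', v', h2, rfl, rfl⟩ := h.lift u v h1
    exact ⟨u', v', h2, rfl, rfl⟩
  conn u v huv := h.conn_preimage (h'.conn _ _ huv) rfl u v rfl rfl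

lemma Good.id {α : Type} (r : α → α → Prop) : Good r r fun x => x where
  hom _ _ h := h
  lift a b h := ⟨a, b, h, rfl, rfl⟩
  conn _ _ h := h ▸ ReflTransGen.refl

lemma Good.surj {A B : FG} {φ : A.V → B.V} (h : Good A.adj B.adj φ) (b : B.V) : ∃ a, φ a = b := by
  obtain ⟨u, -, -, hu, -⟩ := h.lift b b (B.refl b)
  exact ⟨u, hu⟩

lemma rtg_pi {ι W : Type} [Finite ι] (r : ι → W → W → Prop) (s s' : ι → W)
    (h : ∀ t, ReflTransGen (r t) (s t) (s' t)) (hr : ∀ t w, r t w w) :
    ReflTransGen (fun u v : ι → W => ∀ t, r t (u t) (v t)) s s' := by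
  classical
  have := Fintype.ofFinite ι
  have key : ∀ F : Finset ι,
      ReflTransGen (fun u v : ι → W => ∀ t, r t (u t) (v t)) s (F.piecewise s' s) := by
    intro F
    induction F using Finset.induction_on with
    | empty => rw [Finset.piecewise_empty]
    | insert t F ht ih =>
      refine ih.trans ?_
      rw [Finset.piecewise_insert]
      have h1 := rtg_lift (r := r t)
        (p := fun u v : ι → W => ∀ t, r t (u t) (v t))
        (fun w => Function.update (F.piecewise s' s) t w) (fun a b hab t' => by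
          by_cases h : t' = t
          · subst h; simpa using hab
          · simpa [h] using hr _ _) (h t)
      rwa [← Finset.piecewise_eq_of_notMem F s' s ht, Function.update_eq_self] at h1
  simpa using key Finset.univ

/-- graph structures on `A × Fin (k+1)` that make the projection a connected epimorphism -/
def Task (A : FG) (k : ℕ) : Type :=
  {E : A.V × Fin (k + 1) → A.V × Fin (k + 1) → Prop //
    (∀ v, E v v) ∧ (∀ u v, E u v → E v u) ∧ Good E A.adj Prod.fst}

instance (A : FG) (k : ℕ) : Finite (Task A k) := by unfold Task; infer_instance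

def next (A : FG) (k : ℕ) : FG where
  V := A.V × (Task A k → Fin (k + 1))
  fin := inferInstance
  adj x y := A.adj x.1 y.1 ∧ ∀ t : Task A k, t.1 (x.1, x.2 t) (y.1, y.2 t)
  refl _ := ⟨A.refl _, fun t => t.2.1 _⟩
  symm _ _ h := ⟨A.symm _ _ h.1, fun t => t.2.2.1 _ _ (h.2 t)⟩

lemma good_task (A : FG) (k : ℕ) (t : Task A k) :
    Good (next A k).adj t.1 fun x => (x.1, x.2 t) where
  hom u v h := h.2 t
  lift a b hab := by
    classical
    have h0 := t.2.2.2.hom _ _ hab
    choose u v h1 h2 h3 using fun t' : Task A k => t'.2.2.2.lift _ _ h0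
    refine ⟨(a.1, Function.update (fun t' => (u t').2) t a.2),
      (b.1, Function.update (fun t' => (v t').2) t b.2), ⟨h0, fun t' => ?_⟩, by simp, by simp⟩
    by_cases h : t' = t
    · subst h; simpa using hab
    · simp only [Function.update_of_ne h]
      have := h1 t'
      rwa [← h2 t', ← h3 t']
  conn u v huv := by
    obtain ⟨a, s⟩ := u
    obtain ⟨b, s'⟩ := v
    obtain ⟨rfl, hs⟩ : a = b ∧ s t = s' t := by simpa using huv
    have h1 := rtg_pi (fun (t' : Task A k) w w' => t'.1 (a, w) (a, w') ∧ (t' = t → w = w')) s s'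
      (fun t' => by
        by_cases h : t' = t
        · subst h; rw [hs]
        · refine rtg_lift (r := fun x y => t'.1 x y ∧ x.1 = a ∧ y.1 = a)
            (p := fun w w' => t'.1 (a, w) (a, w') ∧ (t' = t → w = w')) Prod.snd
            (fun x y hxy => ⟨?_, fun h' => absurd h' h⟩) (t'.2.2.2.conn (a, s t') (a, s' t') rfl)
          obtain ⟨h1, h2, h3⟩ := hxy
          rwa [← h2, show (x.1, y.2) = y from Prod.ext (h2.trans h3.symm) rfl])
      (fun t' w => ⟨t'.2.1 _, fun _ => rfl⟩)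
    have h2 : ∀ s'' : Task A k → Fin (k + 1), ReflTransGen (fun u v : Task A k → Fin (k + 1) =>
        ∀ t', t'.1 (a, u t') (a, v t') ∧ (t' = t → u t' = v t')) s s'' →
        s'' t = s t ∧ Conn (next A k).adj (fun x => (x.1, x.2 t) = (a, s t)) (a, s) (a, s'') := by
      intro s'' h
      induction h with
      | refl => exact ⟨rfl, ReflTransGen.refl⟩
      | tail _ hbc ih =>
        have h3 := ((hbc t).2 rfl).symm.trans ih.1
        exact ⟨h3, ih.2.trans (Conn.single ⟨A.refl a, fun t' => (hbc t').1⟩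
          (Prod.ext rfl ih.1) (Prod.ext rfl h3))⟩
    exact (h2 s' h1).2

def trivTask (A : FG) (k : ℕ) : Task A k :=
  ⟨fun x y => A.adj x.1 y.1, fun _ => A.refl _, fun _ _ h => A.symm _ _ h,
    { hom := fun _ _ h => h
      lift := fun a b h => ⟨(a, 0), (b, 0), h, rfl, rfl⟩
      conn := fun u _ h => Conn.single (h ▸ A.refl u.1) rfl h.symm }⟩

lemma good_next (A : FG) (k : ℕ) : Good (next A k).adj A.adj Prod.fst :=
  (trivTask A k).2.2.2.comp (good_task A k (trivTask A k))

lemma next_ext {A B C : FG} (k : ℕ) {g : A.V → B.V} (hg : Good A.adj B.adj g) {q : C.V → B.V}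
    (hq : Good C.adj B.adj q) [Nonempty C.V] (hk : Nat.card C.V ≤ k + 1) :
    ∃ g' : (next A k).V → C.V, Good (next A k).adj C.adj g' ∧ ∀ x, q (g' x) = g x.1 := by
  classical
  obtain ⟨e, he⟩ : ∃ e : Fin (k + 1) → C.V, Function.Surjective e := by
    have := Fintype.ofFinite C.V
    obtain ⟨j⟩ := Function.Embedding.nonempty_of_card_le (α := C.V) (β := Fin (k + 1))
      (by simpa using hk)
    exact ⟨Function.invFun j, Function.invFun_surjective j.injective⟩
  choose sec hsec using hq.surj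
  let σ : B.V → Fin (k + 1) → C.V := fun b i => if q (e i) = b then e i else sec b
  have hσ : ∀ b i, q (σ b i) = b := fun b i => by
    simp only [σ]; split_ifs with h
    exacts [h, hsec b]
  have hσ' : ∀ c, ∃ i, σ (q c) i = c := fun c => by
    obtain ⟨i, rfl⟩ := he c
    exact ⟨i, by simp [σ]⟩
  let E : A.V × Fin (k + 1) → A.V × Fin (k + 1) → Prop := fun x y =>
    A.adj x.1 y.1 ∧ C.adj (σ (g x.1) x.2) (σ (g y.1) y.2)
  have hE : Good E C.adj fun x => σ (g x.1) x.2 :=
    { hom := fun _ _ h => h.2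
      lift := fun c c' h => by
        obtain ⟨u, v, h1, h2, h3⟩ := hg.lift _ _ (hq.hom _ _ h)
        obtain ⟨i, hi⟩ := hσ' c
        obtain ⟨j, hj⟩ := hσ' c'
        refine ⟨(u, i), (v, j), ⟨h1, ?_⟩, ?_, ?_⟩
        · simp only [h2, h3, hi, hj, h]
        · simp only [h2, hi]
        · simp only [h3, hj]
      conn := fun u v h => by
        have h1 : g u.1 = g v.1 := by rw [← hσ (g u.1) u.2, h, hσ]
        have h2 := rtg_lift (r := fun x y => A.adj x y ∧ g x = g u.1 ∧ g y = g u.1)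
          (p := fun x y => E x y ∧ σ (g x.1) x.2 = σ (g u.1) u.2 ∧ σ (g y.1) y.2 = σ (g u.1) u.2)
          (fun x => (x, u.2)) (fun x y hxy => by
            obtain ⟨h1, h2, h3⟩ := hxy
            refine ⟨⟨h1, ?_⟩, ?_, ?_⟩
            · simp only [h2, h3]; exact C.refl _
            · simp only [h2]
            · simp only [h3]) (hg.conn _ _ h1)
        refine Conn.trans h2 (Conn.single (r := E) ⟨A.refl _, ?_⟩ ?_ h.symm)
        · simp only [← h]; rw [← h1]; exact C.refl _
        · simp only [← h1] }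
  have hE' : Good E A.adj Prod.fst :=
    { hom := fun _ _ h => h.1
      lift := fun a a' h => by
        obtain ⟨c, c', h1, h2, h3⟩ := hq.lift _ _ (hg.hom _ _ h)
        obtain ⟨i, hi⟩ := hσ' c
        obtain ⟨j, hj⟩ := hσ' c'
        refine ⟨(a, i), (a', j), ⟨h, ?_⟩, rfl, rfl⟩
        simp only [← h2, ← h3, hi, hj, h1]
      conn := fun u v h => by
        choose ind hind using hσ'
        have h1 : q (σ (g u.1) u.2) = q (σ (g v.1) v.2) := by rw [hσ, hσ, h]
        have h2 := rtg_lift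
          (r := fun x y => C.adj x y ∧ q x = q (σ (g u.1) u.2) ∧ q y = q (σ (g u.1) u.2))
          (p := fun x y => E x y ∧ x.1 = u.1 ∧ y.1 = u.1)
          (fun c => (u.1, ind c)) (fun x y hxy => by
            obtain ⟨h1, h2, h3⟩ := hxy
            rw [hσ] at h2 h3
            refine ⟨⟨A.refl _, ?_⟩, rfl, rfl⟩
            have h4 := hind x
            have h5 := hind y
            rw [h2] at h4
            rw [h3] at h5
            simp only [h4, h5, h1]) (hq.conn _ _ h1)
        have h3 : ∀ w : A.V × Fin (k + 1), σ (g w.1) (ind (σ (g w.1) w.2)) = σ (g w.1) w.2 :=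
          fun w => by simpa only [hσ] using hind (σ (g w.1) w.2)
        refine (Conn.single (r := E) (S := fun x => x.1 = u.1) (u := u)
          (v := (u.1, ind (σ (g u.1) u.2))) ⟨A.refl _, ?_⟩ rfl rfl).trans
          (Conn.trans h2 (Conn.single (r := E) ⟨h ▸ A.refl _, ?_⟩ rfl h.symm))
        · simp only [h3]; exact C.refl _
        · simp only [h, h3]; exact C.refl _ }
  exact ⟨_, hE.comp (good_task A k ⟨E, fun _ => ⟨A.refl _, C.refl _⟩,
    fun _ _ h => ⟨A.symm _ _ h.1, C.symm _ _ h.2⟩, hE'⟩), fun x => hσ _ _⟩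

/-- subdivision killing injective walks of length two -/
def subdiv (A : FG) : FG where
  V := {p : A.V × A.V // A.adj p.1 p.2}
  fin := inferInstance
  adj x y := x.1.1 = y.1.1 ∨ (x.1.1 = y.1.2 ∧ x.1.2 = y.1.1)
  refl _ := Or.inl rfl
  symm _ _ h := h.imp Eq.symm fun h => ⟨h.2.symm, h.1.symm⟩

lemma good_subdiv (A : FG) : Good (subdiv A).adj A.adj fun x => x.1.1 where
  hom u v h := by
    rcases h with h | h
    · exact h ▸ A.refl _
    · exact h.2 ▸ u.2
  lift a b h := ⟨⟨(a, b), h⟩, ⟨(b, a), A.symm _ _ h⟩, Or.inr ⟨rfl, rfl⟩, rfl, rfl⟩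
  conn _ _ h := Conn.single (Or.inl h) rfl h.symm

lemma subdiv_tri (A : FG) (u v w : (subdiv A).V) (h : (subdiv A).adj u v)
    (h' : (subdiv A).adj v w) : u.1.1 = v.1.1 ∨ v.1.1 = w.1.1 ∨ u.1.1 = w.1.1 := by
  rcases h with h | h
  · exact Or.inl h
  · rcases h' with h' | h'
    · exact Or.inr (Or.inl h')
    · exact Or.inr (Or.inr (h.1.trans h'.2))

/-- doubling every vertex -/
def twin (A : FG) : FG where
  V := A.V × Bool
  fin := inferInstance
  adj x y := A.adj x.1 y.1
  refl _ := A.refl _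
  symm _ _ h := A.symm _ _ h

lemma good_twin (A : FG) : Good (twin A).adj A.adj Prod.fst where
  hom _ _ h := h
  lift a b h := ⟨(a, true), (b, true), h, rfl, rfl⟩
  conn u _ h := Conn.single (show A.adj _ _ from h ▸ A.refl u.1) rfl h.symm

/-- distance at most two -/
def Near (A : FG) (x y : A.V) : Prop := ∃ z, A.adj x z ∧ A.adj z y

/-- the correspondence that pins the vertex `a` to the vertex `b` -/
def pin (A B : FG) (φ : B.V → (twin A).V) (a : (twin A).V) (b : B.V) : FG where
  V := {p : (twin A).V × B.V // Near A p.1.1 (φ p.2).1 ∧ (p.1 = a → p.2 = b)}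
  fin := inferInstance
  adj x y := A.adj x.1.1.1 y.1.1.1 ∧ B.adj x.1.2 y.1.2
  refl _ := ⟨A.refl _, B.refl _⟩
  symm _ _ h := ⟨A.symm _ _ h.1, B.symm _ _ h.2⟩

lemma good_pin_fst {A B : FG} {φ : B.V → (twin A).V} (hφ : Good B.adj (twin A).adj φ)
    {a : (twin A).V} {b : B.V} (hab : A.adj a.1 (φ b).1) :
    Good (pin A B φ a b).adj (twin A).adj fun x => x.1.1 where
  hom _ _ h := h.1
  lift a' a'' h := by
    by_cases h1 : a' = a ∨ a'' = a
    · refine ⟨⟨(a', b), ?_, fun _ => rfl⟩, ⟨(a'', b), ?_, fun _ => rfl⟩, ⟨h, B.refl _⟩, rfl, rfl⟩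
      · rcases h1 with rfl | rfl
        exacts [⟨_, A.refl _, hab⟩, ⟨_, h, hab⟩]
      · rcases h1 with rfl | rfl
        exacts [⟨_, A.symm _ _ h, hab⟩, ⟨_, A.refl _, hab⟩]
    · push Not at h1
      obtain ⟨b', hb'⟩ := hφ.surj a'
      exact ⟨⟨(a', b'), ⟨_, A.refl _, hb' ▸ A.refl _⟩, fun h => absurd h h1.1⟩,
        ⟨(a'', b'), ⟨_, A.symm _ _ h, hb' ▸ A.refl _⟩, fun h => absurd h h1.2⟩,
        ⟨h, B.refl _⟩, rfl, rfl⟩
  conn u v h := by
    obtain ⟨⟨a', b1⟩, h1, h1'⟩ := u
    obtain ⟨⟨a'', b2⟩, h2, h2'⟩ := v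
    obtain rfl : a' = a'' := h
    by_cases ha : a' = a
    · obtain rfl : b1 = b := h1' ha
      obtain rfl : b2 = b1 := h2' ha
      exact ReflTransGen.refl
    · have h3 : Conn (twin A).adj (fun x => Near A a'.1 x.1) (φ b1) (φ b2) := by
        obtain ⟨z1, hz1, hz1'⟩ := id h1
        obtain ⟨z2, hz2, hz2'⟩ := id h2
        have e1 : Near A a'.1 z1 := ⟨_, hz1, A.refl _⟩
        have e2 : Near A a'.1 z2 := ⟨_, hz2, A.refl _⟩
        have e3 : Near A a'.1 a'.1 := ⟨_, A.refl _, A.refl _⟩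
        exact ((Conn.single (v := (z1, true)) (A.symm _ _ hz1') h1 e1).trans
          (Conn.single (v := a') (A.symm _ _ hz1) e1 e3)).trans
          ((Conn.single (v := (z2, true)) hz2 e3 e2).trans (Conn.single hz2' e2 h2))
      have h4 := hφ.conn_preimage h3 h1 b1 b2 rfl rfl
      have h5 : ∀ b3, Conn B.adj (fun x => Near A a'.1 (φ x).1) b1 b3 →
          ∀ h6 : Near A a'.1 (φ b3).1 ∧ (a' = a → b3 = b),
          Conn (pin A B φ a b).adj (fun x => x.1.1 = a') ⟨(a', b1), h1, h1'⟩ ⟨(a', b3), h6⟩ := by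
        intro b3 h
        induction h with
        | refl => intro _; exact ReflTransGen.refl
        | tail _ hbc ih =>
          intro h6
          exact (ih ⟨hbc.2.1, fun h => absurd h ha⟩).trans
            (Conn.single ⟨A.refl _, hbc.1⟩ rfl rfl)
      exact h5 b2 h4 ⟨h2, h2'⟩

lemma good_pin_snd {A B : FG} {φ : B.V → (twin A).V} (hφ : Good B.adj (twin A).adj φ)
    (a : (twin A).V) (b : B.V) : Good (pin A B φ a b).adj B.adj fun x => x.1.2 where
  hom _ _ h := h.2
  lift b' b'' h :=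
    ⟨⟨(((φ b').1, !a.2), b'), ⟨_, A.refl _, A.refl _⟩,
        fun h => absurd (congrArg Prod.snd h) (by simp)⟩,
      ⟨(((φ b').1, !a.2), b''), ⟨_, A.refl _, hφ.hom _ _ h⟩,
        fun h => absurd (congrArg Prod.snd h) (by simp)⟩, ⟨A.refl _, h⟩, rfl, rfl⟩
  conn u v h := by
    obtain ⟨⟨a1, b'⟩, ⟨z1, hz1, hz1'⟩, h1'⟩ := u
    obtain ⟨⟨a2, b''⟩, ⟨z2, hz2, hz2'⟩, h2'⟩ := v
    obtain rfl : b' = b'' := h
    have hne : ∀ z : A.V, ((z, !a.2) : (twin A).V) = a → b' = b :=
      fun z h => absurd (congrArg Prod.snd h) (by simp)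
    have key : ∀ x y : (pin A B φ a b).V, A.adj x.1.1.1 y.1.1.1 → x.1.2 = b' → y.1.2 = b' →
        Conn (pin A B φ a b).adj (fun x => x.1.2 = b') x y := fun x y h hx hy =>
      Conn.single (r := (pin A B φ a b).adj) ⟨h, by rw [hx, hy]; exact B.refl _⟩ hx hy
    exact ((key _ ⟨((z1, !a.2), b'), ⟨_, A.refl _, hz1'⟩, hne _⟩ hz1 rfl rfl).trans
      (key _ ⟨(((φ b').1, !a.2), b'), ⟨_, A.refl _, A.refl _⟩, hne _⟩ hz1' rfl rfl)).trans
      ((key _ ⟨((z2, !a.2), b'), ⟨_, A.refl _, hz2'⟩, hne _⟩ (A.symm _ _ hz2') rfl rfl).trans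
      (key _ _ (A.symm _ _ hz2) rfl rfl))

end Pool.Agent.Lib.MP_0a6a2f_gt
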