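import Pool.Agent.Lib.MP_0a6a2f_gt.Space

namespace Pool.Agent.Lib.MP_0a6a2f_gt

open Topology Filter Set

abbrev SL2 : Type := Matrix.SpecialLinearGroup (Fin 2) ℤ_[2]

instance : CompactSpace SL2 := by
  have : CompactSpace (Matrix (Fin 2) (Fin 2) ℤ_[2]) :=
    inferInstanceAs (CompactSpace (Fin 2 → Fin 2 → ℤ_[2]))
  exact isCompact_iff_compactSpace.1
    (isClosed_eq (continuous_id.matrix_det) continuous_const :
      IsClosed {A : Matrix (Fin 2) (Fin 2) ℤ_[2] | A.det = 1}).isCompact

instance : TotallyDisconnectedSpace SL2 := by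
  have : TotallyDisconnectedSpace (Matrix (Fin 2) (Fin 2) ℤ_[2]) :=
    inferInstanceAs (TotallyDisconnectedSpace (Fin 2 → Fin 2 → ℤ_[2]))
  exact inferInstanceAs
    (TotallyDisconnectedSpace {A : Matrix (Fin 2) (Fin 2) ℤ_[2] // A.det = 1})

instance : SecondCountableTopology SL2 := by
  have : SecondCountableTopology (Matrix (Fin 2) (Fin 2) ℤ_[2]) :=
    inferInstanceAs (SecondCountableTopology (Fin 2 → Fin 2 → ℤ_[2]))
  exact (IsInducing.subtypeVal
    (t := {A : Matrix (Fin 2) (Fin 2) ℤ_[2] | A.det = 1})).secondCountableTopology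

noncomputable def ga : SL2 := ⟨!![1, 1; 0, 1], by simp [Matrix.det_fin_two]⟩

noncomputable def gb : SL2 := ⟨!![1, 0; 1, 1], by simp [Matrix.det_fin_two]⟩

lemma ga_pow (m : ℕ) : (ga ^ m).1 = !![1, (m : ℤ_[2]); 0, 1] := by
  induction m with
  | zero => ext i j; fin_cases i <;> fin_cases j <;> simp
  | succ m ih =>
    rw [pow_succ, Matrix.SpecialLinearGroup.coe_mul, ih]
    simp [ga, add_comm]

lemma gb_pow (m : ℕ) : (gb ^ m).1 = !![1, 0; (m : ℤ_[2]), 1] := by
  induction m with
  | zero => ext i j; fin_cases i <;> fin_cases j <;> simp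
  | succ m ih =>
    rw [pow_succ, Matrix.SpecialLinearGroup.coe_mul, ih]
    simp [gb]

lemma ga_gb {m k : ℕ} (hm : 1 ≤ m) (hk : 1 ≤ k) : ga ^ m * gb ^ k ≠ gb ^ k * ga ^ m := by
  intro h
  have := congrFun (congrFun (congrArg Subtype.val h) 0) 0
  rw [Matrix.SpecialLinearGroup.coe_mul, Matrix.SpecialLinearGroup.coe_mul, ga_pow, gb_pow] at this
  simp at this
  omega

noncomputable def GG : Subgroup SL2 := (Subgroup.closure {ga, gb}).topologicalClosure

instance : CompactSpace GG :=
  isCompact_iff_compactSpace.1 (Subgroup.isClosed_topologicalClosure _).isCompact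

instance : SecondCountableTopology GG :=
  (IsInducing.subtypeVal (t := (GG : Set SL2))).secondCountableTopology

noncomputable def gx : GG :=
  ⟨ga, Subgroup.le_topologicalClosure _ (Subgroup.subset_closure (by simp))⟩

noncomputable def gy : GG :=
  ⟨gb, Subgroup.le_topologicalClosure _ (Subgroup.subset_closure (by simp))⟩

lemma gg_dense : Dense (Subgroup.closure {gx, gy} : Set GG) := by
  have h : Subtype.val '' (Subgroup.closure {gx, gy} : Set GG) =
      (Subgroup.closure {ga, gb} : Set SL2) := by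
    have := MonoidHom.map_closure GG.subtype {gx, gy}
    rw [image_pair] at this
    exact congrArg SetLike.coe this
  exact Subtype.dense_iff.2 (subset_rfl.trans (congrArg closure h).symm.subset)

lemma gg_noncomm : ∀ W ∈ 𝓝 (1 : GG), ∃ a ∈ W, ∃ b ∈ W, a * b ≠ b * a := by
  intro W hW
  obtain ⟨m, hm, hm'⟩ := (((mapClusterPt_one_atTop_pow gx).frequently hW).and_eventually
    (eventually_ge_atTop 1)).exists
  obtain ⟨k, hk, hk'⟩ := (((mapClusterPt_one_atTop_pow gy).frequently hW).and_eventually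
    (eventually_ge_atTop 1)).exists
  exact ⟨_, hm, _, hk, fun h => ga_gb hm' hk' (congrArg Subtype.val h)⟩

theorem main :
    ∃ (X : Type) (_ : TopologicalSpace X),
      CompactSpace X ∧ ConnectedSpace X ∧ TopologicalSpace.MetrizableSpace X ∧
      Nontrivial X ∧
      (∀ (n : ℕ) (U : Fin n → Set X), (∀ i, IsOpen (U i)) → (⋃ i, U i) = Set.univ →
        ∃ (m : ℕ) (V : Fin m → Set X), (∀ j, IsOpen (V j)) ∧ (⋃ j, V j) = Set.univ ∧
          (∀ j, ∃ i, V j ⊆ U i) ∧
          ∀ (x : X) (a b c : Fin m), x ∈ V a → x ∈ V b → x ∈ V c →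
            a = b ∨ a = c ∨ b = c) ∧
      (∀ x y : X, ∃ h : X ≃ₜ X, h x = y) ∧
      ∃ x y : X, ∀ h : X → X, Continuous h → h x = y → h y ≠ x := by
  obtain ⟨a, b, hab⟩ := sol_no_swap gx gy gg_dense gg_noncomm
  refine ⟨Sol gx gy, inferInstance, inferInstance, sol_connected gx gy gg_dense, inferInstance,
    ⟨a, b, fun h => hab id continuous_id h h.symm⟩, ?_, sol_homogeneous gx gy gg_dense, a, b, hab⟩
  let := TopologicalSpace.metrizableSpaceMetric (Sol gx gy)
  exact dim_le_one (continuous_mk gx gy) Quotient.mk_surjective (mk_two gx gy)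

end Pool.Agent.Lib.MP_0a6a2f_gt
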