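import Pool.Agent.Lib.MP_0a6a2f_gt.General

namespace Pool.Agent.Lib.MP_0a6a2f_gt

open Topology Filter Set Relation

section labels

variable {G : Type} [Group G] (x y : G)

def lab (a b : Fin 9) : G :=
  if a = 2 ∧ b = 3 then x else if a = 3 ∧ b = 2 then x⁻¹
  else if a = 6 ∧ b = 7 then y else if a = 7 ∧ b = 6 then y⁻¹ else 1

lemma lab_self (a : Fin 9) : lab x y a a = 1 := by
  fin_cases a <;> simp [lab]

lemma lab_symm (a b : Fin 9) : lab x y a b * lab x y b a = 1 := by
  fin_cases a <;> fin_cases b <;> simp [lab]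

lemma lab_mem (a b : Fin 9) : lab x y a b ∈ Subgroup.closure {x, y} := by
  have hx : x ∈ Subgroup.closure {x, y} := Subgroup.subset_closure (by simp)
  have hy : y ∈ Subgroup.closure {x, y} := Subgroup.subset_closure (by simp)
  unfold lab
  split_ifs
  exacts [hx, inv_mem hx, hy, inv_mem hy, one_mem _]

lemma girth : ∀ a b c d : Fin 9, adj0 a b = true → adj0 b d = true → adj0 a c = true →
    adj0 c d = true → b = c ∨ a = d ∨ (a = b ∧ c = d) ∨ (a = c ∧ b = d) := by decide +kernel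

lemma lab_sq {a b c d : Fin 9} (h1 : A0.adj a b) (h2 : A0.adj b d) (h3 : A0.adj a c)
    (h4 : A0.adj c d) : lab x y a b * lab x y b d = lab x y a c * lab x y c d := by
  rcases girth a b c d h1 h2 h3 h4 with rfl | rfl | ⟨rfl, rfl⟩ | ⟨rfl, rfl⟩
  · rfl
  · rw [lab_symm, lab_symm]
  · rw [lab_self, lab_self, one_mul, mul_one]
  · rw [lab_self, lab_self, one_mul, mul_one]

lemma lab_tri {a b d : Fin 9} (h1 : A0.adj a b) (h2 : A0.adj b d) (h3 : A0.adj a d) :
    lab x y a b * lab x y b d = lab x y a d := by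
  rw [lab_sq x y h1 h2 (A0.refl a) h3, lab_self, one_mul]

lemma loops {A : FG} {φ : A.V → Fin 9} (hφ : Good A.adj A0.adj φ) (S : A.V → G → A.V → Prop)
    (h1 : ∀ v w, A.adj v w → S v (lab x y (φ v) (φ w)) w)
    (h2 : ∀ u γ v γ' w, S u γ v → S v γ' w → S u (γ * γ') w) :
    (∀ v, φ v = 0 → ∀ γ ∈ Subgroup.closure {x, y}, S v γ v) ∧
      ∀ v w, φ v = 0 → ∃ γ, S v γ w := by
  have s1 : ∀ v w, φ v = φ w → S v 1 w := fun v w h => by
    have : ∀ w, Conn A.adj (fun z => φ z = φ v) v w → S v 1 w := fun w hw => by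
      induction hw with
      | refl => simpa [lab_self] using h1 v v (A.refl v)
      | tail _ hbc ih =>
        have := h2 _ _ _ _ _ ih (h1 _ _ hbc.1)
        rwa [hbc.2.1, hbc.2.2, lab_self, one_mul] at this
    exact this w (hφ.conn v w h)
  let S' : Fin 9 → G → Fin 9 → Prop := fun a γ b => ∀ v w, φ v = a → φ w = b → S v γ w
  have s2 : ∀ a b, adj0 a b = true → S' a (lab x y a b) b := fun a b h v w hv hw => by
    obtain ⟨v', w', h3, h4, h5⟩ := hφ.lift a b h
    have := h2 _ _ _ _ _ (h2 _ _ _ _ _ (s1 v v' (hv.trans h4.symm)) (h1 _ _ h3))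
      (s1 w' w (h5.trans hw.symm))
    rwa [one_mul, mul_one, h4, h5] at this
  have s3 : ∀ {a γ b γ' c}, S' a γ b → S' b γ' c → S' a (γ * γ') c := fun {a γ b γ' c} h h' v w hv hw => by
    obtain ⟨u, hu⟩ := hφ.surj (B := A0) b
    exact h2 _ _ _ _ _ (h v u hv hu) (h' u w hu hw)
  have e01 := s2 0 1 rfl
  have e02 := s3 e01 (s2 1 2 rfl)
  have e03 := s3 e02 (s2 2 3 rfl)
  have e04 := s2 0 4 rfl
  have e05 := s2 0 5 rfl
  have e06 := s3 e05 (s2 5 6 rfl)
  have e07 := s3 e06 (s2 6 7 rfl)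
  have e08 := s2 0 8 rfl
  have lx : S' 0 x 0 := by simpa [lab] using s3 (s3 e03 (s2 3 4 rfl)) (s2 4 0 rfl)
  have ly : S' 0 y 0 := by simpa [lab] using s3 (s3 e07 (s2 7 8 rfl)) (s2 8 0 rfl)
  have lx' : S' 0 x⁻¹ 0 := by
    simpa [lab] using s3 (s3 (s3 (s3 e04 (s2 4 3 rfl)) (s2 3 2 rfl)) (s2 2 1 rfl)) (s2 1 0 rfl)
  have ly' : S' 0 y⁻¹ 0 := by
    simpa [lab] using s3 (s3 (s3 (s3 e08 (s2 8 7 rfl)) (s2 7 6 rfl)) (s2 6 5 rfl)) (s2 5 0 rfl)
  have l1 : S' 0 1 0 := fun v w hv hw => s1 v w (hv.trans hw.symm)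
  refine ⟨fun v hv γ hγ => ?_, fun v w hv => ?_⟩
  · have : S' 0 γ 0 ∧ S' 0 γ⁻¹ 0 := by
      induction hγ using Subgroup.closure_induction with
      | mem s hs =>
        rcases hs with rfl | rfl
        exacts [⟨lx, lx'⟩, ⟨ly, ly'⟩]
      | one => simpa using l1
      | mul a b _ _ iha ihb => exact ⟨s3 iha.1 ihb.1, by simpa using s3 ihb.2 iha.2⟩
      | inv a _ iha => exact ⟨iha.2, by simpa using iha.1⟩
    exact this.1 v v hv hv
  · have : ∀ a, ∃ γ, S' 0 γ a := fun a => by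
      fin_cases a
      exacts [⟨_, l1⟩, ⟨_, e01⟩, ⟨_, e02⟩, ⟨_, e03⟩, ⟨_, e04⟩, ⟨_, e05⟩, ⟨_, e06⟩, ⟨_, e07⟩,
        ⟨_, e08⟩]
    exact (this (φ w)).imp fun γ h => h v w hv rfl

lemma R.adj0 {z w : M} (h : R z w) : A0.adj z.1 w.1 := h 0

def rel : Setoid (M × G) where
  r p q := R p.1 q.1 ∧ q.2 = p.2 * lab x y p.1.1 q.1.1
  iseqv :=
    { refl := fun p => ⟨R.refl _, by rw [lab_self, mul_one]⟩
      symm := fun h => ⟨h.1.symm, by rw [h.2, mul_assoc, lab_symm, mul_one]⟩
      trans := fun h h' => ⟨h.1.trans h'.1, by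
        rw [h'.2, h.2, mul_assoc, lab_tri x y h.1.adj0 h'.1.adj0 (h.1.trans h'.1).adj0]⟩ }

/-- the solenoidal Menger continuum -/
abbrev Sol : Type := Quotient (rel x y)

abbrev mk (p : M × G) : Sol x y := Quotient.mk (rel x y) p

lemma mk_eq {p q : M × G} : mk x y p = mk x y q ↔ R p.1 q.1 ∧ q.2 = p.2 * lab x y p.1.1 q.1.1 :=
  Quotient.eq

lemma mk_two (p q r : M × G) (h : mk x y p = mk x y q) (h' : mk x y q = mk x y r) :
    p = q ∨ q = r ∨ p = r := by
  have key : ∀ p q : M × G, mk x y p = mk x y q → p.1 = q.1 → p = q := fun p q h h' =>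
    Prod.ext h' (by rw [((mk_eq x y).1 h).2, h', lab_self, mul_one])
  exact (((mk_eq x y).1 h).1.tri ((mk_eq x y).1 h').1).imp (key _ _ h)
    (Or.imp (key _ _ h') (key _ _ (h.trans h')))

variable [TopologicalSpace G] [IsTopologicalGroup G]

omit [IsTopologicalGroup G] in
lemma continuous_lab {Y : Type} [TopologicalSpace Y] {u v : Y → Fin 9} (hu : Continuous u)
    (hv : Continuous v) : Continuous fun z => lab x y (u z) (v z) :=
  (continuous_of_discreteTopology (f := fun p : Fin 9 × Fin 9 => lab x y p.1 p.2)).comp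
    (hu.prodMk hv)

omit [IsTopologicalGroup G] in
lemma continuous_mk : Continuous (mk x y) := continuous_quotient_mk'

lemma rel_closed [T2Space G] : IsClosed {q : (M × G) × (M × G) | rel x y q.1 q.2} :=
  (isClosed_R (u := fun q : (M × G) × (M × G) => q.1.1) (v := fun q => q.2.1) (by fun_prop)
    (by fun_prop)).inter (isClosed_eq (by fun_prop)
      ((show Continuous fun q : (M × G) × (M × G) => q.1.2 by fun_prop).mul
        (continuous_lab x y (by fun_prop) (by fun_prop))))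

instance [CompactSpace G] [T2Space G] : T2Space (Sol x y) := quot_t2 _ (rel_closed x y)

instance [CompactSpace G] [T2Space G] [SecondCountableTopology G] :
    TopologicalSpace.MetrizableSpace (Sol x y) :=
  metrizable_of_surj (continuous_mk x y) Quotient.mk_surjective

omit [IsTopologicalGroup G] in
theorem sol_connected (hd : Dense (Subgroup.closure {x, y} : Set G)) :
    ConnectedSpace (Sol x y) := by
  have : PreconnectedSpace (Sol x y) := by
    refine preconnectedSpace_of_forall_constant fun f hf => ?_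
    have c0 : ∀ z w g, z.1 = w.1 → f (mk x y (z, g)) = f (mk x y (w, g)) := fun z w g h =>
      (epi_pr 0).const (W := fun z => f (mk x y (z, g)))
        (hf.comp ((continuous_mk x y).comp (by fun_prop))) h fun z' w' h1 h2 h3 =>
          congrArg f ((mk_eq x y).2 ⟨h1, by
            rw [show z'.1 = w'.1 from h2.trans h3.symm, lab_self, mul_one]⟩)
    obtain ⟨h1, h2⟩ := loops x y (A := A0) (Good.id _)
      (fun a γ b => ∀ (z w : M) g, z.1 = a → w.1 = b → f (mk x y (z, g)) = f (mk x y (w, g * γ)))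
      (fun a b h z w g hz hw => by
        obtain ⟨z', w', h1, h2, h3⟩ := (epi_pr 0).lift h
        rw [c0 z z' g (hz.trans h2.symm), c0 w w' _ (hw.trans h3.symm), ← h2, ← h3]
        exact congrArg f ((mk_eq x y).2 ⟨h1, rfl⟩))
      (fun a γ b γ' c h h' z w g hz hw => by
        obtain ⟨u, hu⟩ := pr_surj 0 b
        rw [h z u g hz hu, h' u w _ hu hw, mul_assoc])
    let z0 : M := (0, fun _ _ => 0)
    have h3 : ∀ g, f (mk x y (z0, g)) = f (mk x y (z0, 1)) := fun g =>
      congrFun (Continuous.ext_on hd (f := fun g => f (mk x y (z0, g)))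
        (g := fun _ => f (mk x y (z0, 1))) (hf.comp ((continuous_mk x y).comp (by fun_prop)))
        continuous_const fun γ hγ => by simpa using (h1 (0 : Fin 9) rfl γ hγ z0 z0 1 rfl rfl).symm) g
    have h4 : ∀ p, f (mk x y p) = f (mk x y (z0, 1)) := fun p => by
      obtain ⟨γ, hγ⟩ := h2 (0 : Fin 9) p.1.1 rfl
      rw [← h3 (p.2 * γ⁻¹), hγ z0 p.1 _ rfl rfl, inv_mul_cancel_right]
    intro a b
    obtain ⟨p, rfl⟩ := Quotient.exists_rep a
    obtain ⟨q, rfl⟩ := Quotient.exists_rep b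
    exact (h4 p).trans (h4 q).symm
  exact ⟨⟨mk x y (default, 1)⟩⟩

lemma exists_lift (h : M ≃ₜ M) (hR : ∀ z w, R (h z) (h w) ↔ R z w)
    (ha : ∀ z, A0.adj z.1 (h z).1) (u : G) :
    ∃ f : Sol x y ≃ₜ Sol x y, ∀ p, f (mk x y p) = mk x y (h p.1, u * p.2 * lab x y p.1.1 (h p.1).1) := by
  let e : (M × G) ≃ₜ (M × G) :=
    { toFun := fun p => (h p.1, u * p.2 * lab x y p.1.1 (h p.1).1)
      invFun := fun p => (h.symm p.1, u⁻¹ * p.2 * (lab x y (h.symm p.1).1 p.1.1)⁻¹)
      left_inv := fun p => by simp only [h.symm_apply_apply]; ext1; · rfl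
                              · simp only; group
      right_inv := fun p => by simp only [h.apply_symm_apply]; ext1; · rfl
                               · simp only; group
      continuous_toFun := (show Continuous fun p : M × G => h p.1 by fun_prop).prodMk
        ((show Continuous fun p : M × G => u * p.2 by fun_prop).mul
          (continuous_lab x y (by fun_prop) (by fun_prop)))
      continuous_invFun := (show Continuous fun p : M × G => h.symm p.1 by fun_prop).prodMk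
        ((show Continuous fun p : M × G => u⁻¹ * p.2 by fun_prop).mul
          (continuous_lab x y (by fun_prop) (by fun_prop)).inv) }
  refine ⟨Homeomorph.Quotient.congr e fun p q => ?_, fun p => rfl⟩
  change (R p.1 q.1 ∧ q.2 = p.2 * lab x y p.1.1 q.1.1) ↔ R (h p.1) (h q.1) ∧
    u * q.2 * lab x y q.1.1 (h q.1).1 =
      u * p.2 * lab x y p.1.1 (h p.1).1 * lab x y (h p.1).1 (h q.1).1
  rw [hR]
  refine and_congr_right fun hr => ?_
  rw [mul_assoc (u * p.2), lab_sq x y (ha p.1) ((hR _ _).2 hr).adj0 hr.adj0 (ha q.1), ← mul_assoc,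
    mul_left_inj, mul_assoc, mul_right_inj]

theorem sol_homogeneous [CompactSpace G] [T2Space G] [SecondCountableTopology G]
    (hd : Dense (Subgroup.closure {x, y} : Set G)) (a b : Sol x y) :
    ∃ h : Sol x y ≃ₜ Sol x y, h a = b := by
  let := TopologicalSpace.metrizableSpaceMetric (Sol x y)
  have := sol_connected x y hd
  have cm := continuous_mk x y
  have s1 : ∀ ε > 0, ∃ n, ∀ (z w : M) (g : G), (T n).adj (pr n z) (pr n w) →
      dist (mk x y (z, g)) (mk x y (w, g * lab x y z.1 w.1)) < ε := fun ε hε => by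
    obtain ⟨n, hn⟩ := exists_empty
      (fun n => {p : M × M × G | (T n).adj (pr n p.1) (pr n p.2.1) ∧
        ε ≤ dist (mk x y (p.1, p.2.2)) (mk x y (p.2.1, p.2.2 * lab x y p.1.1 p.2.1.1))})
      (fun n => (lc_closed (pair_lc (pr_lc n) (pr_lc n) continuous_fst (by fun_prop))
        fun p => (T n).adj p.1 p.2).inter (isClosed_le continuous_const
          ((cm.comp (by fun_prop)).dist (cm.comp
            ((show Continuous fun p : M × M × G => p.2.1 by fun_prop).prodMk
            ((show Continuous fun p : M × M × G => p.2.2 by fun_prop).mul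
              (continuous_lab x y (by fun_prop) (by fun_prop))))))))
      (fun n p hp => ⟨pr_adj_mono (Nat.le_succ n) hp.1, hp.2⟩)
      (fun p => by
        by_contra h
        push Not at h
        have h1 := (h 0).2
        rw [(mk_eq x y (p := (p.1, p.2.2)) (q := (p.2.1, p.2.2 * lab x y p.1.1 p.2.1.1))).2
          ⟨fun n => (h n).1, rfl⟩, dist_self] at h1
        exact absurd hε (not_lt.2 h1))
    exact ⟨n, fun z w g h => not_le.1 fun h' => hn (z, w, g) ⟨h, h'⟩⟩
  refine homog_of_micro (fun ε hε => ?_) a b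
  obtain ⟨n, hn⟩ := s1 (ε / 2) (half_pos hε)
  obtain ⟨N, hN, hNo, hN1⟩ := eventually_nhds_iff.1
    (isCompact_univ.eventually_forall_of_forall_eventually (x₀ := (1 : G))
    (P := fun u (p : M × G) => dist (mk x y p) (mk x y (p.1, u * p.2)) < ε / 2) fun p _ =>
      (isOpen_lt ((cm.comp (by fun_prop)).dist (cm.comp (by fun_prop)))
        continuous_const).mem_nhds (by simpa using hε))
  obtain ⟨A, f, hf, hA⟩ := move n
  let W : Set ((M × G) × (M × G)) := {q | A.adj (f q.1.1) (f q.2.1) ∧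
    q.2.2 * (lab x y q.1.1.1 q.2.1.1)⁻¹ * q.1.2⁻¹ ∈ N}
  have hW : IsOpen W :=
    (lc_open (pair_lc hf.lc hf.lc (u := fun q : (M × G) × (M × G) => q.1.1) (v := fun q => q.2.1)
      (by fun_prop) (by fun_prop)) fun p => A.adj p.1 p.2).inter (hNo.preimage
      (((show Continuous fun q : (M × G) × (M × G) => q.2.2 by fun_prop).mul
        (continuous_lab x y (by fun_prop) (by fun_prop)).inv).mul (by fun_prop)))
  obtain ⟨δ, hδ, hδ'⟩ := hW.isClosed_compl.isCompact.exists_forall_le'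
    (f := fun q : (M × G) × (M × G) => dist (mk x y q.1) (mk x y q.2)) (a := (0 : ℝ))
    ((cm.comp continuous_fst).dist (cm.comp continuous_snd)).continuousOn fun q hq =>
      dist_pos.2 fun h => hq (by
        obtain ⟨h1, h2⟩ := (mk_eq x y).1 h
        exact ⟨hf.hom h1, by simpa [h2] using hN1⟩)
  refine ⟨δ, hδ, fun a b hab η hη => ?_⟩
  obtain ⟨p, rfl⟩ := Quotient.exists_rep a
  obtain ⟨q, rfl⟩ := Quotient.exists_rep b
  have hpq : (p, q) ∈ W := by
    by_contra h
    exact absurd hab (not_lt.2 (hδ' _ h))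
  obtain ⟨m, hm⟩ := s1 η hη
  obtain ⟨h, h1, h2, h3⟩ := hA p.1 q.1 hpq.1 m
  obtain ⟨F, hF⟩ := exists_lift x y h h1 (fun z => pr_adj_mono (Nat.zero_le n) (h2 z))
    (q.2 * (lab x y p.1.1 q.1.1)⁻¹ * p.2⁻¹)
  refine ⟨F, fun c => ?_, ?_⟩
  · obtain ⟨r, rfl⟩ := Quotient.exists_rep c
    have h4 := hN _ hpq.2 r trivial
    have h5 := hn r.1 (h r.1) (q.2 * (lab x y p.1.1 q.1.1)⁻¹ * p.2⁻¹ * r.2) (h2 _)
    rw [← hF] at h5
    exact (dist_triangle _ _ _).trans_lt ((add_lt_add h4 h5).trans_eq (add_halves ε))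
  · have h4 : (h p.1).1 = q.1.1 := pr_mono (Nat.zero_le m) h3
    have h5 := hm (h p.1) q.1 q.2 (h3 ▸ FG.refl _ _)
    rw [h4, lab_self, mul_one] at h5
    have h6 := hF p
    rw [h4, inv_mul_cancel_right, inv_mul_cancel_right] at h6
    exact h6 ▸ h5

theorem sol_coord [CompactSpace G] [T2Space G] [TotallyDisconnectedSpace G]
    {h : Sol x y → Sol x y} (hh : Continuous h) :
    ∃ (Ψ : M × G → G) (n : ℕ) (K : Set G), Continuous Ψ ∧ K.Finite ∧
      K ⊆ Subgroup.closure {x, y} ∧ (∀ z w g, pr n z = pr n w → Ψ (z, g) = Ψ (w, g)) ∧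
      (∀ p q, mk x y p = mk x y q → (Ψ q)⁻¹ * Ψ p ∈ K) ∧
      ∀ p q, h (mk x y p) = mk x y q → q.2⁻¹ * Ψ p ∈ Subgroup.closure {x, y} := by
  have cm := continuous_mk x y
  have hcl := quot_closedMap _ (rel_closed x y)
  let O : Fin 9 → Set (Sol x y) := fun a => (mk x y '' {p | ¬ A0.adj p.1.1 a})ᶜ
  have hO : ∀ a, IsOpen (O a) := fun a => (hcl _ (lc_closed
    ((pr_lc 0).comp_continuous continuous_fst) fun b => ¬ A0.adj b a)).isOpen_compl
  have hO1 : ∀ p, mk x y p ∈ O p.1.1 := fun p ⟨q, hq, h⟩ => hq ((mk_eq x y).1 h).1.adj0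
  have hO2 : ∀ p a, mk x y p ∈ O a → A0.adj p.1.1 a := fun p a h => by
    by_contra h'
    exact h ⟨p, h', rfl⟩
  let τ : Fin 9 → Sol x y → G := fun a ξ => ξ.out.2 * lab x y ξ.out.1.1 a
  have hτ : ∀ p a, mk x y p ∈ O a → τ a (mk x y p) = p.2 * lab x y p.1.1 a := fun p a h => by
    have h1 : mk x y (mk x y p).out = mk x y p := Quotient.out_eq _
    obtain ⟨h2, h3⟩ := (mk_eq x y).1 h1
    simp only [τ]
    rw [h3, mul_assoc, lab_tri x y h2.adj0 (hO2 _ _ h) (hO2 _ _ (h1.symm ▸ h))]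
  have hτc : ∀ a, ContinuousOn (τ a) (O a) := fun a => by
    refine continuousOn_iff_isClosed.2 fun t ht => ⟨mk x y '' {p | p.2 * lab x y p.1.1 a ∈ t},
      hcl _ (ht.preimage (continuous_snd.mul (continuous_lab x y (by fun_prop) continuous_const))),
      ?_⟩
    ext ξ
    obtain ⟨p, rfl⟩ := Quotient.exists_rep ξ
    refine and_congr_left fun hp => ⟨fun h => ⟨p, ?_, rfl⟩, fun ⟨q, hq, h⟩ => ?_⟩
    · rwa [mem_preimage, hτ p a hp] at h
    · rw [← h] at hp
      rw [← h, mem_preimage, hτ q a hp]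
      exact hq
  obtain ⟨α, hα, hα'⟩ := exists_lc_select (fun a => (fun p => h (mk x y p)) ⁻¹' O a)
    (fun a => (hO a).preimage (hh.comp cm)) fun p => by
      obtain ⟨q, hq⟩ := Quotient.exists_rep (h (mk x y p))
      exact ⟨q.1.1, by rw [mem_preimage, ← hq]; exact hO1 q⟩
  have hΨ : Continuous fun p => τ (α p) (h (mk x y p)) := by
    refine continuous_iff_continuousAt.2 fun p => ?_
    refine ContinuousAt.congr (f := fun q => τ (α p) (h (mk x y q)))
      (ContinuousAt.comp (f := fun q => h (mk x y q))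
        ((hτc _).continuousAt ((hO _).mem_nhds (hα' p))) (hh.comp cm).continuousAt) ?_
    filter_upwards [hα.eventually_eq p] with q hq using by rw [hq]
  obtain ⟨n, hn⟩ := exists_level hα
  have key : ∀ p q, h (mk x y p) = mk x y q →
      τ (α p) (h (mk x y p)) = q.2 * lab x y q.1.1 (α p) := fun p q hq => by
    rw [hq]
    exact hτ _ _ (hq ▸ hα' p)
  refine ⟨_, n, range fun t : Fin 9 × Fin 9 × Fin 9 => (lab x y t.1 t.2.1)⁻¹ * lab x y t.1 t.2.2,
    hΨ, finite_range _, ?_, fun z w g hzw => ?_, fun p q hpq => ?_, fun p q hq => ?_⟩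
  · rintro _ ⟨t, rfl⟩
    exact mul_mem (inv_mem (lab_mem x y _ _)) (lab_mem x y _ _)
  · refine (epi_pr n).const (W := fun z => τ (α (z, g)) (h (mk x y (z, g))))
      (hΨ.comp (by fun_prop)) hzw fun z' w' h1 h2 h3 => ?_
    have h4 : z'.1 = w'.1 := pr_mono (Nat.zero_le n) (h2.trans h3.symm)
    rw [hn z' w' g (h2.trans h3.symm),
      (mk_eq x y (p := (z', g)) (q := (w', g))).2 ⟨h1, by rw [h4, lab_self, mul_one]⟩]
  · obtain ⟨r, hr⟩ := Quotient.exists_rep (h (mk x y p))
    refine ⟨(r.1.1, α q, α p), ?_⟩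
    simp only
    rw [key p r hr.symm, key q r (hpq ▸ hr.symm)]
    group
  · rw [key p q hq, inv_mul_cancel_left]
    exact lab_mem x y _ _

theorem sol_no_swap [CompactSpace G] [T2Space G] [TotallyDisconnectedSpace G]
    (hd : Dense (Subgroup.closure {x, y} : Set G))
    (hnc : ∀ W ∈ 𝓝 (1 : G), ∃ a ∈ W, ∃ b ∈ W, a * b ≠ b * a) :
    ∃ a b : Sol x y, ∀ h : Sol x y → Sol x y, Continuous h → h a = b → h b = a → False := by
  have : Countable (Subgroup.closure {x, y} : Subgroup G) := by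
    have : Countable (FreeGroup ({x, y} : Set G)) :=
      inferInstanceAs (Countable (Quot _))
    rw [← Subtype.range_coe (s := ({x, y} : Set G)), ← FreeGroup.range_lift_eq_closure]
    exact (countable_range _).to_subtype
  obtain ⟨g0, hg0⟩ := baire_swap (Subgroup.closure {x, y}) hd hnc
  let z0 : M := (0, fun _ _ => 0)
  refine ⟨mk x y (z0, 1), mk x y (z0, g0), fun h hh h1 h2 => ?_⟩
  obtain ⟨Ψ, n, K, hΨ, hK, hKH, hl, hr, hH⟩ := sol_coord x y hh
  obtain ⟨φ, hφ, hφ'⟩ := pr_down (Nat.zero_le n)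
  choose sec hsec using pr_surj n
  let Φ : (T n).V → G → G := fun v g => Ψ (sec v, g)
  have hΦ : ∀ z g, Φ (pr n z) g = Ψ (z, g) := fun z g => hl _ _ g (hsec _)
  have hΦc : ∀ v, Continuous (Φ v) := fun v => hΨ.comp (by fun_prop)
  let k : (T n).V → (T n).V → G → G := fun v w g => (Φ w (g * lab x y (φ v) (φ w)))⁻¹ * Φ v g
  have hkc : ∀ v w, Continuous (k v w) := fun v w =>
    ((hΦc w).comp (by fun_prop)).inv.mul (hΦc v)
  have hk : ∀ v w, (T n).adj v w → ∀ g, k v w g ∈ K := fun v w hvw g => by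
    obtain ⟨z, z', h3, rfl, rfl⟩ := (epi_pr n).lift hvw
    simp only [k, hΦ, ← hφ']
    exact hr _ _ ((mk_eq x y).2 ⟨h3, rfl⟩)
  let N : Subgroup G :=
    { carrier := {u | ∀ v w, (T n).adj v w → ∀ g, k v w (u * g) = k v w g}
      mul_mem' := fun {a b} ha hb v w hvw g => by rw [mul_assoc, ha v w hvw, hb v w hvw]
      one_mem' := fun v w _ g => by rw [one_mul]
      inv_mem' := fun {a} ha v w hvw g => by rw [← ha v w hvw, mul_inv_cancel_left] }
  have hN : IsOpen (N : Set G) := by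
    refine N.isOpen_of_mem_nhds (g := 1) ?_
    refine eventually_all.2 fun v => eventually_all.2 fun w => eventually_all.2 fun hvw => ?_
    refine (isCompact_univ.eventually_forall_of_forall_eventually (x₀ := (1 : G))
      (P := fun u g => k v w (u * g) = k v w g) fun g _ => ?_).mono fun u hu g => hu g trivial
    have h3 : ∀ᶠ g' in 𝓝 g, k v w g' = k v w g := by
      filter_upwards [(hkc v w).continuousAt.preimage_mem_nhds
        ((hK.subset (sdiff_subset (t := {k v w g}))).isClosed.isOpen_compl.mem_nhds (by simp))]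
        with g' hg'
      by_contra h4
      exact hg' ⟨hk v w hvw g', h4⟩
    have h4 : Tendsto (fun z : G × G => z.1 * z.2) (𝓝 (1, g)) (𝓝 g) := by
      simpa using (continuous_mul (M := G)).tendsto (1, g)
    filter_upwards [h4.eventually h3, (continuous_snd.tendsto ((1 : G), g)).eventually h3]
      with z h5 h6 using h5.trans h6.symm
  obtain ⟨h3, -⟩ := loops x y hφ
    (fun v γ w => (∀ u ∈ N, ∀ g, (Φ w (u * g * γ))⁻¹ * Φ v (u * g) = (Φ w (g * γ))⁻¹ * Φ v g) ∧
      ∀ g, (Φ w (g * γ))⁻¹ * Φ v g ∈ Subgroup.closure {x, y})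
    (fun v w hvw => ⟨fun u hu g => hu v w hvw g, fun g => hKH (hk v w hvw g)⟩)
    (fun u γ v γ' w h3 h4 => by
      have e : ∀ g, (Φ w (g * (γ * γ')))⁻¹ * Φ u g =
          ((Φ w (g * γ * γ'))⁻¹ * Φ v (g * γ)) * ((Φ v (g * γ))⁻¹ * Φ u g) := fun g => by
        rw [mul_assoc g]; group
      refine ⟨fun a ha g => ?_, fun g => ?_⟩
      · rw [e, e, h3.1 a ha, mul_assoc a g γ, h4.1 a ha]
      · rw [e]; exact mul_mem (h4.2 _) (h3.2 _))
  have h4 := h3 (pr n z0) (hφ' z0).symm
  refine hg0 (Φ (pr n z0)) N (hΦc _) hN (fun γ hγ u hu => ?_) (fun γ hγ u => (h4 γ hγ).2 u) ?_ ?_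
  · simpa using (h4 γ hγ).1 u hu 1
  · rw [hΦ]; exact hH _ _ h1
  · rw [hΦ]; simpa using hH _ _ h2

end labels

end Pool.Agent.Lib.MP_0a6a2f_gt
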