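import Pool.Agent.Lib.MP_0a6a2f_gt.Graph

namespace Pool.Agent.Lib.MP_0a6a2f_gt

open Relation

lemma exists_empty {Y : Type} [TopologicalSpace Y] [CompactSpace Y] (K : ℕ → Set Y)
    (hc : ∀ n, IsClosed (K n)) (hd : ∀ n, K (n + 1) ⊆ K n) (h : ∀ y, ∃ n, y ∉ K n) :
    ∃ n, ∀ y, y ∉ K n := by
  by_contra hne
  push Not at hne
  obtain ⟨y, hy⟩ := IsCompact.nonempty_iInter_of_sequence_nonempty_isCompact_isClosed K hd
    (fun n => hne n) (hc 0).isCompact hc
  obtain ⟨n, hn⟩ := h y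
  exact hn (Set.mem_iInter.1 hy n)

lemma exists_mem_all {Y : Type} [TopologicalSpace Y] [CompactSpace Y] (K : ℕ → Set Y)
    (hc : ∀ n, IsClosed (K n)) (hd : ∀ n, K (n + 1) ⊆ K n) (h : ∀ n, ∃ y, y ∈ K n) :
    ∃ y, ∀ n, y ∈ K n := by
  by_contra hne
  push Not at hne
  obtain ⟨n, hn⟩ := exists_empty K hc hd hne
  obtain ⟨y, hy⟩ := h n
  exact hn y hy

lemma lc_closed {Y ι : Type} [TopologicalSpace Y] {f : Y → ι} (hf : IsLocallyConstant f)
    (p : ι → Prop) : IsClosed {y | p (f y)} :=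
  ⟨hf {i | p i}ᶜ⟩

lemma lc_open {Y ι : Type} [TopologicalSpace Y] {f : Y → ι} (hf : IsLocallyConstant f)
    (p : ι → Prop) : IsOpen {y | p (f y)} :=
  hf {i | p i}

/-- two pentagons with the common vertex `0` -/
def adj0 (a b : Fin 9) : Bool :=
  a == b || (a, b) ∈ [(0, 1), (1, 2), (2, 3), (3, 4), (4, 0), (0, 5), (5, 6), (6, 7), (7, 8), (8, 0)]
    || (b, a) ∈ [(0, 1), (1, 2), (2, 3), (3, 4), (4, 0), (0, 5), (5, 6), (6, 7), (7, 8), (8, 0)]

def A0 : FG where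
  V := Fin 9
  fin := inferInstance
  adj a b := adj0 a b = true
  refl := by decide
  symm := by decide

def T : ℕ → FG
  | 0 => A0
  | n + 1 => next (T n) n

/-- the projective limit of the tower -/
abbrev M : Type := Fin 9 × ∀ n : ℕ, Task (T n) n → Fin (n + 1)

def pr : ∀ n : ℕ, M → (T n).V
  | 0 => fun x => x.1
  | n + 1 => fun x => (pr n x, x.2 n)

lemma pr_lc (n : ℕ) : IsLocallyConstant (pr n) := by
  induction n with
  | zero => exact (IsLocallyConstant.iff_continuous (fun x : M => x.1)).2 continuous_fst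
  | succ n ih =>
    exact ih.prodMk ((IsLocallyConstant.iff_continuous (fun x : M => x.2 n)).2
      ((continuous_apply n).comp continuous_snd))

lemma pr_ext {x y : M} (h : ∀ n, pr n x = pr n y) : x = y :=
  Prod.ext (h 0) (funext fun n => congrArg Prod.snd (h (n + 1)))

lemma pr_congr (n : ℕ) {x y : M} (h1 : x.1 = y.1) (h2 : ∀ m < n, x.2 m = y.2 m) :
    pr n x = pr n y := by
  induction n with
  | zero => exact h1
  | succ n ih =>
    exact Prod.ext (ih fun m hm => h2 m (Nat.lt_succ_of_lt hm)) (h2 n (Nat.lt_succ_self n))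

lemma pr_surj (n : ℕ) (a : (T n).V) : ∃ x, pr n x = a := by
  induction n with
  | zero => exact ⟨(a, fun _ _ => 0), rfl⟩
  | succ n ih =>
    obtain ⟨x, hx⟩ := ih a.1
    refine ⟨(x.1, Function.update x.2 n a.2), Prod.ext ?_ ?_⟩
    · exact (pr_congr n (x := (x.1, Function.update x.2 n a.2)) (y := x) rfl
        fun m hm => Function.update_of_ne hm.ne _ _).trans hx
    · exact Function.update_self n a.2 x.2

lemma continuous_of_pr {Y : Type} [TopologicalSpace Y] {h : Y → M}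
    (hh : ∀ n, IsLocallyConstant fun y => pr n (h y)) : Continuous h := by
  have h1 : Continuous fun y => (h y).1 := (IsLocallyConstant.iff_continuous _).1 (hh 0)
  have h2 : Continuous fun y => (h y).2 := continuous_pi fun n =>
    (IsLocallyConstant.iff_continuous _).1 ((hh (n + 1)).comp Prod.snd)
  exact h1.prodMk h2

/-- connected epimorphisms from the limit -/
def Epi (A : FG) (f : M → A.V) : Prop :=
  ∃ n, ∃ g : (T n).V → A.V, Good (T n).adj A.adj g ∧ ∀ x, f x = g (pr n x)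

lemma epi_pr (n : ℕ) : Epi (T n) (pr n) := ⟨n, _, Good.id _, fun _ => rfl⟩

lemma Epi.comp {A B : FG} {f : M → A.V} (hf : Epi A f) {g : A.V → B.V} (hg : Good A.adj B.adj g) :
    Epi B fun x => g (f x) := by
  obtain ⟨n, g', hg', h⟩ := hf
  exact ⟨n, _, hg.comp hg', fun x => congrArg g (h x)⟩

lemma Epi.up {A : FG} {f : M → A.V} (hf : Epi A f) (k : ℕ) :
    ∃ n, k ≤ n ∧ ∀ m, n ≤ m → ∃ g : (T m).V → A.V, Good (T m).adj A.adj g ∧
      ∀ x, f x = g (pr m x) := by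
  obtain ⟨n, g, hg, h⟩ := hf
  refine ⟨max k n, le_max_left _ _, fun m hm => ?_⟩
  have hm' : n ≤ m := (le_max_right _ _).trans hm
  clear hm
  induction m, hm' using Nat.le_induction with
  | base => exact ⟨g, hg, h⟩
  | succ m _ ih =>
    obtain ⟨g', hg', h'⟩ := ih
    exact ⟨fun x => g' x.1, hg'.comp (good_next (T m) m), h'⟩

lemma pr_down {n m : ℕ} (h : n ≤ m) :
    ∃ g : (T m).V → (T n).V, Good (T m).adj (T n).adj g ∧ ∀ x, pr n x = g (pr m x) := by
  induction m, h using Nat.le_induction with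
  | base => exact ⟨_, Good.id _, fun _ => rfl⟩
  | succ m _ ih =>
    obtain ⟨g', hg', h'⟩ := ih
    exact ⟨fun x => g' x.1, hg'.comp (good_next (T m) m), h'⟩

lemma pr_mono {n m : ℕ} (h : n ≤ m) {x y : M} (hxy : pr m x = pr m y) : pr n x = pr n y := by
  obtain ⟨g, -, hg⟩ := pr_down h
  rw [hg, hg, hxy]

lemma pr_adj_mono {n m : ℕ} (h : n ≤ m) {x y : M} (hxy : (T m).adj (pr m x) (pr m y)) :
    (T n).adj (pr n x) (pr n y) := by
  obtain ⟨g, hg', hg⟩ := pr_down h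
  rw [hg, hg]
  exact hg'.hom _ _ hxy

lemma Epi.lc {A : FG} {f : M → A.V} (hf : Epi A f) : IsLocallyConstant f := by
  obtain ⟨n, g, -, h⟩ := hf
  rw [show f = g ∘ pr n from funext h]
  exact (pr_lc n).comp g

lemma Epi.surj {A : FG} {f : M → A.V} (hf : Epi A f) (a : A.V) : ∃ x, f x = a := by
  obtain ⟨n, g, hg, h⟩ := hf
  obtain ⟨b, rfl⟩ := hg.surj a
  obtain ⟨x, rfl⟩ := pr_surj n b
  exact ⟨x, h x⟩

theorem Epi.ext {A C : FG} {f : M → A.V} (hf : Epi A f) {q : C.V → A.V}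
    (hq : Good C.adj A.adj q) : ∃ f' : M → C.V, Epi C f' ∧ ∀ x, q (f' x) = f x := by
  obtain ⟨n, hn, h⟩ := hf.up (Nat.card C.V)
  obtain ⟨g, hg, h⟩ := h n le_rfl
  have : Nonempty C.V := ⟨(hq.surj (f default)).choose⟩
  obtain ⟨g', hg', h'⟩ := next_ext n hg hq (hn.trans (Nat.le_succ n))
  exact ⟨fun x => g' (pr (n + 1) x), ⟨n + 1, g', hg', fun _ => rfl⟩, 
    fun x => (h' _).trans (h x).symm⟩

/-- the edge relation of the limit -/
def R (x y : M) : Prop := ∀ n, (T n).adj (pr n x) (pr n y)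

lemma R.refl (x : M) : R x x := fun _ => FG.refl _ _

lemma R.symm {x y : M} (h : R x y) : R y x := fun n => FG.symm _ _ _ (h n)

lemma Epi.hom {A : FG} {f : M → A.V} (hf : Epi A f) {x y : M} (h : R x y) : A.adj (f x) (f y) := by
  obtain ⟨n, g, hg, h'⟩ := hf
  rw [h', h']
  exact hg.hom _ _ (h n)

lemma pair_lc {Y : Type} [TopologicalSpace Y] {A B : Type} {f : M → A} {g : M → B}
    (hf : IsLocallyConstant f) (hg : IsLocallyConstant g) {u v : Y → M} (hu : Continuous u)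
    (hv : Continuous v) : IsLocallyConstant fun y => (f (u y), g (v y)) :=
  (hf.comp_continuous hu).prodMk (hg.comp_continuous hv)

lemma isClosed_R {Y : Type} [TopologicalSpace Y] {u v : Y → M} (hu : Continuous u)
    (hv : Continuous v) : IsClosed {y | R (u y) (v y)} := by
  simp only [R, Set.ofPred_forall]
  exact isClosed_iInter fun n =>
    lc_closed (pair_lc (pr_lc n) (pr_lc n) hu hv) fun p => (T n).adj p.1 p.2

lemma Epi.lift {A : FG} {f : M → A.V} (hf : Epi A f) {a b : A.V} (hab : A.adj a b) :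
    ∃ x y, R x y ∧ f x = a ∧ f y = b := by
  obtain ⟨p, hp⟩ := exists_mem_all
    (fun n => {p : M × M | (T n).adj (pr n p.1) (pr n p.2) ∧ f p.1 = a ∧ f p.2 = b})
    (fun n => (lc_closed (pair_lc (pr_lc n) (pr_lc n) continuous_fst continuous_snd)
      fun p => (T n).adj p.1 p.2).inter
      (lc_closed (pair_lc hf.lc hf.lc continuous_fst continuous_snd) fun p => p.1 = a ∧ p.2 = b))
    (fun n p hp => ⟨pr_adj_mono (Nat.le_succ n) hp.1, hp.2⟩)
    (fun k => by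
      obtain ⟨n, hn, h⟩ := hf.up k
      obtain ⟨g, hg, h⟩ := h n le_rfl
      obtain ⟨u, v, h1, h2, h3⟩ := hg.lift a b hab
      obtain ⟨x, rfl⟩ := pr_surj n u
      obtain ⟨y, rfl⟩ := pr_surj n v
      exact ⟨(x, y), pr_adj_mono hn h1, (h x).trans h2, (h y).trans h3⟩)
  exact ⟨p.1, p.2, fun n => (hp n).1, (hp 0).2⟩

lemma exists_level {G ι : Type} [TopologicalSpace G] [CompactSpace G] {α : M × G → ι}
    (hα : IsLocallyConstant α) : ∃ n, ∀ x y g, pr n x = pr n y → α (x, g) = α (y, g) := by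
  obtain ⟨n, hn⟩ := exists_empty
    (fun n => {p : M × M × G | pr n p.1 = pr n p.2.1 ∧ α (p.1, p.2.2) ≠ α (p.2.1, p.2.2)})
    (fun n => (lc_closed (pair_lc (pr_lc n) (pr_lc n) continuous_fst (by fun_prop))
      fun p => p.1 = p.2).inter
      (lc_closed ((hα.comp_continuous (f := fun p : M × M × G => (p.1, p.2.2)) (by fun_prop)).prodMk
        (hα.comp_continuous (f := fun p : M × M × G => (p.2.1, p.2.2)) (by fun_prop)))
        fun p => p.1 ≠ p.2))
    (fun n p hp => ⟨pr_mono (Nat.le_succ n) hp.1, hp.2⟩)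
    (fun p => by
      by_contra h
      push Not at h
      exact (h 0).2 (by rw [pr_ext fun n => (h n).1]))
  refine ⟨n, fun x y g h => ?_⟩
  by_contra h'
  exact hn (x, y, g) ⟨h, h'⟩

lemma Epi.const_lc {A : FG} {f : M → A.V} (hf : Epi A f) {ι : Type} {W : M → ι}
    (hW : IsLocallyConstant W) {x y : M} (hxy : f x = f y)
    (h : ∀ z w, R z w → f z = f x → f w = f x → W z = W w) : W x = W y := by
  obtain ⟨k, hk⟩ := exists_level (G := Unit) (α := fun p => W p.1)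
    (hW.comp_continuous continuous_fst)
  obtain ⟨n, hn, h'⟩ := hf.up k
  obtain ⟨g, hg, h'⟩ := h' n le_rfl
  have hk' : ∀ z w, pr n z = pr n w → W z = W w := fun z w h => hk z w () (pr_mono hn h)
  have key : ∀ v, Conn (T n).adj (fun u => g u = g (pr n x)) (pr n x) v →
      ∀ y, pr n y = v → W x = W y := by
    intro v hv
    induction hv with
    | refl => intro y hy; exact hk' _ _ hy.symm
    | tail _ hbc ih =>
      intro y hy
      obtain ⟨z, w, h1, h2, h3⟩ := (epi_pr n).lift hbc.1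
      rw [ih z h2, h z w h1 (by rw [h', h', h2, hbc.2.1]) (by rw [h', h', h3, hbc.2.2])]
      exact hk' _ _ (h3.trans hy.symm)
  exact key _ (hg.conn _ _ (by rw [← h', ← h', hxy])) y rfl

lemma Epi.const {A : FG} {f : M → A.V} (hf : Epi A f) {Y : Type} [TopologicalSpace Y]
    [TotallySeparatedSpace Y] {W : M → Y} (hW : Continuous W) {x y : M} (hxy : f x = f y)
    (h : ∀ z w, R z w → f z = f x → f w = f x → W z = W w) : W x = W y := by
  by_contra hne
  obtain ⟨U, hU, h1, h2⟩ := exists_isClopen_of_totally_separated hne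
  have := hf.const_lc (W := fun z => W z ∈ U)
    (((IsLocallyConstant.iff_isOpen_fiber_apply).2 fun z => by
      by_cases hz : W z ∈ U
      · have : (fun z => W z ∈ U) ⁻¹' {W z ∈ U} = W ⁻¹' U := by ext; simp [hz]
        rw [this]; exact hU.isOpen.preimage hW
      · have : (fun z => W z ∈ U) ⁻¹' {W z ∈ U} = W ⁻¹' Uᶜ := by ext; simp [hz]
        rw [this]; exact hU.compl.isOpen.preimage hW)) hxy
    (fun z w h1 h2 h3 => by rw [h z w h1 h2 h3])
  exact h2 (this ▸ h1)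

lemma Epi.sub {A : FG} {f : M → A.V} (hf : Epi A f) :
    ∃ (A' : FG) (f' : M → A'.V), Epi A' f' ∧ ∀ x z v, A'.adj (f' x) v → A'.adj v (f' z) →
      (A.adj (f x) (f z) ∧ ∀ y, v = f' y → f x = f y ∨ f y = f z ∨ f x = f z) := by
  obtain ⟨f', hf', h⟩ := hf.ext (good_subdiv A)
  refine ⟨_, f', hf', fun x z v h1 h2 => ?_⟩
  have h3 := subdiv_tri A _ _ _ h1 h2
  have h4 := (good_subdiv A).hom _ _ h1
  have h5 := (good_subdiv A).hom _ _ h2
  simp only [h] at h3 h4 h5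
  refine ⟨?_, fun y hy => by rwa [hy, h] at h3⟩
  rcases h3 with h3 | h3 | h3
  · rwa [h3]
  · rwa [← h3]
  · rw [h3]; exact A.refl _

lemma R.tri {x y z : M} (h : R x y) (h' : R y z) : x = y ∨ y = z ∨ x = z := by
  by_contra hne
  push Not at hne
  obtain ⟨n1, h1⟩ := not_forall.1 fun h => hne.1 (pr_ext h)
  obtain ⟨n2, h2⟩ := not_forall.1 fun h => hne.2.1 (pr_ext h)
  obtain ⟨n3, h3⟩ := not_forall.1 fun h => hne.2.2 (pr_ext h)
  obtain ⟨A', f', hf', h4⟩ := (epi_pr (n1 + n2 + n3)).sub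
  rcases (h4 x z _ (hf'.hom h) (hf'.hom h')).2 y rfl with h5 | h5 | h5
  · exact h1 (pr_mono (by omega) h5)
  · exact h2 (pr_mono (by omega) h5)
  · exact h3 (pr_mono (by omega) h5)

lemma R.trans {x y z : M} (h : R x y) (h' : R y z) : R x z := by
  rcases h.tri h' with rfl | rfl | rfl
  exacts [h', h, R.refl _]

lemma bf_step (k n : ℕ) (u : M → (T n).V) (hu : Epi (T n) u) :
    ∃ n', ∃ u' : M → (T n').V, Epi (T n') u' ∧ k ≤ n' ∧
      (∃ θ : (T n').V → (T n).V, (∀ x, θ (u' x) = u x) ∧ ∀ x, θ (pr n' x) = pr n x) ∧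
      ∃ α : (T n').V → (T k).V, Good (T n').adj (T k).adj α ∧ ∀ x, α (u' x) = pr k x := by
  obtain ⟨n1, hn1, h⟩ := hu.up k
  obtain ⟨g, hg, h⟩ := h n1 le_rfl
  obtain ⟨v, hv, hv'⟩ := (epi_pr n).ext hg
  obtain ⟨n2, hn2, h'⟩ := hv.up k
  obtain ⟨g', hg', h'⟩ := h' n2 le_rfl
  obtain ⟨u', hu', hu''⟩ := (epi_pr n1).ext hg'
  obtain ⟨β, hβ, hβ'⟩ := pr_down hn1
  exact ⟨n2, u', hu', hn2, ⟨fun x => g (g' x), fun x => by simp only [hu'', h],
    fun x => by simp only [← h', hv']⟩, fun x => β (g' x), hβ.comp hg',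
    fun x => by simp only [hu'', ← hβ']⟩

theorem exists_aut {n : ℕ} {u : M → (T n).V} (hu : Epi (T n) u) :
    ∃ h : M ≃ₜ M, (∀ z w, R (h z) (h w) ↔ R z w) ∧ ∀ z, pr n (h z) = u z := by
  choose N U hU hN hθ hα using bf_step
  let S : ℕ → Σ n, {u : M → (T n).V // Epi (T n) u} := fun k =>
    Nat.rec ⟨n, u, hu⟩ (fun k s => ⟨N k s.1 s.2.1 s.2.2, U k s.1 s.2.1 s.2.2,
      hU k s.1 s.2.1 s.2.2⟩) k
  have hS1 : ∀ k, k ≤ (S (k + 1)).1 := fun k => hN k _ _ _
  have hS2 : ∀ k x y, (S (k + 1)).2.1 x = pr _ y → (S k).2.1 x = pr _ y := fun k x y h => by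
    obtain ⟨θ, h1, h2⟩ := hθ k _ _ (S k).2.2
    rw [← h1, ← h2]
    exact congrArg θ h
  have hS3 : ∀ k, ∃ α : (T (S (k + 1)).1).V → (T k).V, Good (T _).adj (T k).adj α ∧
      ∀ x, α ((S (k + 1)).2.1 x) = pr k x := fun k => hα k _ _ (S k).2.2
  have e1 : ∀ x, ∃ y, ∀ k, (S k).2.1 x = pr _ y := fun x =>
    exists_mem_all (fun k => {y | (S k).2.1 x = pr _ y})
      (fun k => lc_closed (pr_lc _) fun a => (S k).2.1 x = a) (fun k y hy => hS2 k x y hy)
      (fun k => (pr_surj _ _).imp fun _ h => h.symm)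
  have e2 : ∀ y, ∃ x, ∀ k, (S k).2.1 x = pr _ y := fun y =>
    exists_mem_all (fun k => {x | (S k).2.1 x = pr _ y})
      (fun k => lc_closed (S k).2.2.lc fun a => a = pr _ y) (fun k x hx => hS2 k x y hx)
      (fun k => (S k).2.2.surj _)
  choose F hF using e1
  choose F' hF' using e2
  have r1 : ∀ x y x' y', (∀ k, (S k).2.1 x = pr _ y) → (∀ k, (S k).2.1 x' = pr _ y') →
      (R y y' ↔ R x x') := fun x y x' y' h h' => by
    refine ⟨fun hr k => ?_, fun hr k => pr_adj_mono (hS1 k) ?_⟩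
    · obtain ⟨α, h1, h2⟩ := hS3 k
      rw [← h2, ← h2, h (k + 1), h' (k + 1)]
      exact h1.hom _ _ (hr _)
    · rw [← h (k + 1), ← h' (k + 1)]
      exact (S (k + 1)).2.2.hom hr
  have r2 : ∀ x y x' y', (∀ k, (S k).2.1 x = pr _ y) → (∀ k, (S k).2.1 x' = pr _ y') →
      (y = y' ↔ x = x') := fun x y x' y' h h' => by
    refine ⟨fun hr => pr_ext fun k => ?_, fun hr => pr_ext fun k => pr_mono (hS1 k) ?_⟩
    · obtain ⟨α, -, h2⟩ := hS3 k
      rw [← h2, ← h2, h (k + 1), h' (k + 1), hr]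
    · rw [← h (k + 1), ← h' (k + 1), hr]
  refine ⟨⟨⟨F, F', fun x => (r2 _ _ _ _ (hF' (F x)) (hF x)).1 rfl,
    fun y => (r2 _ _ _ _ (hF (F' y)) (hF' y)).2 rfl⟩, ?_, ?_⟩,
    fun z w => r1 _ _ _ _ (hF z) (hF w), fun z => (hF z 0).symm⟩
  · refine continuous_of_pr fun k => ?_
    obtain ⟨β, -, hβ⟩ := pr_down (hS1 k)
    have : (fun y => pr k (F y)) = β ∘ (S (k + 1)).2.1 := funext fun y => by
      rw [hβ, ← hF y (k + 1)]; rfl
    exact this ▸ (S (k + 1)).2.2.lc.comp β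
  · refine continuous_of_pr fun k => ?_
    obtain ⟨α, -, h2⟩ := hS3 k
    have : (fun y => pr k (F' y)) = α ∘ pr _ := funext fun y => by
      rw [← h2, hF' y (k + 1)]; rfl
    exact this ▸ (pr_lc _).comp α

theorem move (n : ℕ) : ∃ (A : FG) (f : M → A.V), Epi A f ∧ ∀ x y, A.adj (f x) (f y) → ∀ m,
    ∃ h : M ≃ₜ M, (∀ z w, R (h z) (h w) ↔ R z w) ∧ (∀ z, (T n).adj (pr n z) (pr n (h z))) ∧
      pr m (h x) = pr m y := by
  obtain ⟨A, f, hf, hA⟩ := (epi_pr n).sub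
  refine ⟨A, f, hf, fun x y hxy m => ?_⟩
  obtain ⟨f1, hf1, h1⟩ := hf.ext (good_twin A)
  obtain ⟨m', hm', h2⟩ := hf1.up m
  obtain ⟨φ, hφ, h2⟩ := h2 m' le_rfl
  have hab : A.adj (f1 x).1 (φ (pr m' y)).1 := by rwa [← h2, h1, h1]
  obtain ⟨f2, hf2, h3⟩ := hf1.ext (good_pin_fst hφ hab)
  obtain ⟨h, hh, hh'⟩ := exists_aut (hf2.comp (good_pin_snd hφ (f1 x) (pr m' y)))
  refine ⟨h, hh, fun z => ?_, pr_mono hm' ?_⟩
  · obtain ⟨v, hv, hv'⟩ := (f2 z).2.1
    rw [h3, h1] at hv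
    rw [← hh', ← h2, h1] at hv'
    exact (hA z (h z) v hv hv').1
  · rw [hh']
    exact (f2 x).2.2 (h3 x)

end Pool.Agent.Lib.MP_0a6a2f_gt
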